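import Pool.Agent.H10.Scale.S4
set_option autoImplicit false

namespace Pool.Agent.H10.Scale

open Finset Filter Topology

lemma cn_eq {k : ℕ} (D : ℕ) (a : Fin k → ℕ) (t m : ℕ) (ht : D < t) (ht2 : t ≤ 2 * D) (hm : m ≤ D) :
    cn (SS D a) t m = ((Ioc t (t + m)).filter (fun n => n.Prime ∧ ∀ i, (n + a i).Prime)).card := by
  unfold cn SS
  congr 1
  apply filter_congr
  intro n hn
  rw [mem_Ioc] at hn
  rw [mem_filter, mem_Ioc]
  constructor
  · rintro ⟨_, h⟩
    exact h
  · intro h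
    exact ⟨⟨by omega, by omega⟩, h⟩

lemma inj_ev (k : ℕ) (c : ℝ) (hc : 0 < c) : ∀ᶠ D : ℕ in atTop,
    (((box k D).filter (fun a => ¬ Function.Injective a)).card : ℝ) ≤ c * (D : ℝ) ^ k := by
  obtain ⟨n, hn⟩ := exists_nat_gt ((k : ℝ) ^ 2 / c)
  filter_upwards [eventually_ge_atTop (n + k + 1)] with D hD
  have hDk : k ≤ D := by omega
  have hD0 : (0 : ℝ) < D := by exact_mod_cast (by omega : 0 < D)
  have hDn : (k : ℝ) ^ 2 / c ≤ D := by
    have : (n : ℝ) ≤ D := by exact_mod_cast (by omega : n ≤ D)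
    linarith
  have h1 := inj_card k D
  have h2 := card_filter_add_card_filter_not (s := box k D) (Function.Injective)
  rw [box_card] at h2
  have h3 : (((box k D).filter (fun a => ¬ Function.Injective a)).card : ℝ)
      = (D : ℝ) ^ k - (((box k D).filter Function.Injective).card : ℝ) := by
    have : ((((box k D).filter Function.Injective).card
      + ((box k D).filter (fun a => ¬ Function.Injective a)).card : ℕ) : ℝ) = ((D ^ k : ℕ) : ℝ) := by
      exact_mod_cast h2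
    push_cast at this
    linarith
  rw [h3]
  have h4 : ((D : ℝ) - k) ^ k ≤ (((box k D).filter Function.Injective).card : ℝ) := by
    have h5 : ((D - k) ^ k : ℕ) ≤ ((box k D).filter Function.Injective).card :=
      (Nat.pow_le_pow_left (by omega) k).trans h1
    have h6 : (((D - k) ^ k : ℕ) : ℝ) = ((D : ℝ) - k) ^ k := by
      push_cast [Nat.cast_sub hDk]
      rfl
    rw [← h6]
    exact_mod_cast h5
  have hkD : (k : ℝ) ≤ D := by exact_mod_cast hDk
  have h5 : (1 - (k : ℝ) ^ 2 / D) * (D : ℝ) ^ k ≤ ((D : ℝ) - k) ^ k := by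
    have h6 := one_add_mul_le_pow (a := -((k : ℝ) / D)) (by
      have : (k : ℝ) / D ≤ 1 := by
        rw [div_le_one hD0]
        exact hkD
      linarith) k
    have h7 : ((D : ℝ) - k) ^ k = (1 + -((k : ℝ) / D)) ^ k * (D : ℝ) ^ k := by
      rw [← mul_pow]
      congr 1
      field_simp
      ring
    rw [h7]
    apply mul_le_mul_of_nonneg_right _ (by positivity)
    have h8 : (k : ℝ) * -((k : ℝ) / D) = -((k : ℝ) ^ 2 / D) := by ring
    rw [h8] at h6
    linarith
  have h9 : (k : ℝ) ^ 2 / D ≤ c := by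
    rw [div_le_iff₀ hD0]
    rw [div_le_iff₀ hc] at hDn
    linarith
  have h10 := mul_le_mul_of_nonneg_right h9 (by positivity : (0 : ℝ) ≤ (D : ℝ) ^ k)
  linarith

open Classical in
theorem main (k : ℕ) (δ : ℝ) (hδ : 0 < δ) (hδ1 : δ < 1) :
    ∃ c : ℝ, 0 < c ∧ ∃ D₀ : ℕ, ∀ D ≥ D₀,
      c * (D : ℝ) ^ k ≤ ({a : Fin k → ℕ | (∀ i, 1 ≤ a i ∧ a i ≤ D) ∧ Function.Injective a ∧
        c * D ≤ ({t : ℕ | D < t ∧ t ≤ 2 * D ∧ ∀ X : ℝ,
          1 / c * (Real.log D) ^ (k + 1) ≤ X → X ≤ c * D →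
          (1 - δ) * (X / (Real.log D) ^ (k + 1)) ≤
            (((Ioc t (t + ⌊X⌋₊)).filter (fun n => n.Prime ∧ ∀ i, (n + a i).Prime)).card : ℝ) ∧
          (((Ioc t (t + ⌊X⌋₊)).filter (fun n => n.Prime ∧ ∀ i, (n + a i).Prime)).card : ℝ) ≤
            1 / c * (X / (Real.log D) ^ (k + 1))}.ncard : ℝ)}.ncard : ℝ) := by
  obtain ⟨C0, c1, κ, c', hC0, hc1, hκ, hc', hc12, D1, hcore⟩ := core k δ hδ hδ1
  set c : ℝ := min (min (c' / 4) c1) (min (1 / (C0 + 1)) (min (1 / κ) (δ / 2))) with hc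
  have hcpos : 0 < c := by
    rw [hc]
    exact lt_min (lt_min (by positivity) hc1)
      (lt_min (by positivity) (lt_min (by positivity) (by positivity)))
  have a1 : c ≤ c' / 4 := (min_le_left _ _).trans (min_le_left _ _)
  have a2 : c ≤ c1 := (min_le_left _ _).trans (min_le_right _ _)
  have a3 : c ≤ 1 / (C0 + 1) := (min_le_right _ _).trans (min_le_left _ _)
  have a4 : c ≤ 1 / κ := (min_le_right _ _).trans ((min_le_right _ _).trans (min_le_left _ _))
  have a5 : c ≤ δ / 2 := (min_le_right _ _).trans ((min_le_right _ _).trans (min_le_right _ _))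
  have b3 : C0 + 1 ≤ 1 / c := by
    rw [le_div_iff₀ hcpos]
    rw [le_div_iff₀ (by linarith)] at a3
    linarith
  have b4 : κ ≤ 1 / c := by
    rw [le_div_iff₀ hcpos]
    rw [le_div_iff₀ hκ] at a4
    linarith
  have b5 : 2 / δ ≤ 1 / c := by
    rw [div_le_div_iff₀ hδ hcpos]
    linarith
  have hev := ((inj_ev k (c' / 4) (by positivity)).and
    ((Real.tendsto_log_atTop.comp tendsto_natCast_atTop_atTop).eventually (eventually_ge_atTop 1))).and
    (eventually_ge_atTop (max D1 1))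
  obtain ⟨D₀, hD₀⟩ := eventually_atTop.mp hev
  refine ⟨c, hcpos, D₀, ?_⟩
  intro D hD
  obtain ⟨⟨hinj, hlog⟩, hDge⟩ := hD₀ D hD
  have hlog1 : (1 : ℝ) ≤ Real.log D := hlog
  have hDD1 : D1 ≤ D := le_trans (le_max_left _ _) hDge
  have hD1 : 1 ≤ D := le_trans (le_max_right _ _) hDge
  have hD0 : (0 : ℝ) < D := by exact_mod_cast hD1
  have hsum := hcore D hDD1
  set Q := (Real.log (D : ℝ)) ^ (k + 1) with hQ
  have hQ1 : 1 ≤ Q := one_le_pow₀ hlog1
  have hQ0 : 0 < Q := by linarith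
  set W : (Fin k → ℕ) → Finset ℕ := fun a => (Ioc D (2 * D)).filter (fun t => t ∈ good D a
    ((1 - δ / 2) / Q) (κ / Q) (C0 * Q) (c1 * D)) with hW
  have hWD : ∀ a, ((W a).card : ℝ) ≤ D := by
    intro a
    have h1 : (W a).card ≤ D := by
      refine (card_filter_le _ _).trans ?_
      rw [Nat.card_Ioc]
      omega
    exact_mod_cast h1
  -- the good starting points
  have hsub : ∀ a, ((W a : Finset ℕ) : Set ℕ) ⊆ {t : ℕ | D < t ∧ t ≤ 2 * D ∧ ∀ X : ℝ,
          1 / c * Q ≤ X → X ≤ c * D →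
          (1 - δ) * (X / Q) ≤
            (((Ioc t (t + ⌊X⌋₊)).filter (fun n => n.Prime ∧ ∀ i, (n + a i).Prime)).card : ℝ) ∧
          (((Ioc t (t + ⌊X⌋₊)).filter (fun n => n.Prime ∧ ∀ i, (n + a i).Prime)).card : ℝ) ≤
            1 / c * (X / Q)} := by
    intro a t ht
    rw [mem_coe, hW] at ht
    have ht' := (mem_filter.mp ht).2
    obtain ⟨h1, h2, h3⟩ := ht'
    refine ⟨h1, h2, ?_⟩
    intro X hX1 hX2
    have hXQ : (C0 + 1) * Q ≤ X := (mul_le_mul_of_nonneg_right b3 hQ0.le).trans hX1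
    have hX0 : 0 ≤ X := le_trans (by positivity) hXQ
    have hXδ : 2 / δ ≤ X := by
      have : 2 / δ * 1 ≤ 1 / c * Q := mul_le_mul b5 hQ1 (by norm_num) (by positivity)
      linarith
    have hfl : (⌊X⌋₊ : ℝ) ≤ X := Nat.floor_le hX0
    have hfl2 : X - 1 < ⌊X⌋₊ := by
      have := Nat.lt_floor_add_one X
      linarith
    have hcD : c * (D : ℝ) ≤ c1 * D := mul_le_mul_of_nonneg_right a2 hD0.le
    have hmD : ⌊X⌋₊ ≤ D := by
      have : (⌊X⌋₊ : ℝ) ≤ D := by
        refine hfl.trans (hX2.trans (hcD.trans ?_))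
        nlinarith
      exact_mod_cast this
    have h4 := h3 ⌊X⌋₊ (by nlinarith) (hfl.trans (hX2.trans hcD))
    rw [cn_eq D a t _ h1 h2 hmD] at h4
    constructor
    · refine le_trans ?_ h4.1
      have e1 : (1 - δ) * X ≤ (1 - δ / 2) * (X - 1) := by
        rw [div_le_iff₀ hδ] at hXδ
        nlinarith
      have e2 : (1 - δ / 2) * (X - 1) ≤ (1 - δ / 2) * (⌊X⌋₊ : ℝ) :=
        mul_le_mul_of_nonneg_left hfl2.le (by linarith)
      have e3 := div_le_div_of_nonneg_right (e1.trans e2) hQ0.le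
      calc (1 - δ) * (X / Q) = (1 - δ) * X / Q := by ring
        _ ≤ (1 - δ / 2) * (⌊X⌋₊ : ℝ) / Q := e3
        _ = (1 - δ / 2) / Q * (⌊X⌋₊ : ℝ) := by ring
    · refine h4.2.trans ?_
      calc κ / Q * (⌊X⌋₊ : ℝ) ≤ κ / Q * X := mul_le_mul_of_nonneg_left hfl (by positivity)
        _ = κ * (X / Q) := by ring
        _ ≤ 1 / c * (X / Q) := mul_le_mul_of_nonneg_right b4 (by positivity)
  -- the good shift vectors
  set B' := (box k D).filter (fun a => Function.Injective a ∧ c * D ≤ ((W a).card : ℝ)) with hB'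
  have hB'sub : ((B' : Finset (Fin k → ℕ)) : Set (Fin k → ℕ)) ⊆
      {a : Fin k → ℕ | (∀ i, 1 ≤ a i ∧ a i ≤ D) ∧ Function.Injective a ∧
        c * D ≤ ({t : ℕ | D < t ∧ t ≤ 2 * D ∧ ∀ X : ℝ,
          1 / c * Q ≤ X → X ≤ c * D →
          (1 - δ) * (X / Q) ≤
            (((Ioc t (t + ⌊X⌋₊)).filter (fun n => n.Prime ∧ ∀ i, (n + a i).Prime)).card : ℝ) ∧
          (((Ioc t (t + ⌊X⌋₊)).filter (fun n => n.Prime ∧ ∀ i, (n + a i).Prime)).card : ℝ) ≤
            1 / c * (X / Q)}.ncard : ℝ)} := by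
    intro a ha
    rw [mem_coe, hB', mem_filter] at ha
    obtain ⟨ha1, ha2, ha3⟩ := ha
    refine ⟨?_, ha2, ?_⟩
    · intro i
      unfold box at ha1
      rw [Fintype.mem_piFinset] at ha1
      exact mem_Icc.mp (ha1 i)
    · refine ha3.trans ?_
      have hfin : ({t : ℕ | D < t ∧ t ≤ 2 * D ∧ ∀ X : ℝ,
          1 / c * Q ≤ X → X ≤ c * D →
          (1 - δ) * (X / Q) ≤
            (((Ioc t (t + ⌊X⌋₊)).filter (fun n => n.Prime ∧ ∀ i, (n + a i).Prime)).card : ℝ) ∧
          (((Ioc t (t + ⌊X⌋₊)).filter (fun n => n.Prime ∧ ∀ i, (n + a i).Prime)).card : ℝ) ≤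
            1 / c * (X / Q)}).Finite :=
        (Set.finite_Icc 0 (2 * D)).subset (fun t ht => ⟨Nat.zero_le _, ht.2.1⟩)
      have := Set.ncard_le_ncard (hsub a) hfin
      rw [Set.ncard_coe_finset] at this
      exact_mod_cast this
  have hcount : c * (D : ℝ) ^ k ≤ (B'.card : ℝ) := by
    have hsplit : ∑ a ∈ box k D, ((W a).card : ℝ) ≤ (B'.card : ℝ) * D
        + (((box k D).filter (fun a => ¬ Function.Injective a)).card : ℝ) * D
        + (D : ℝ) ^ k * (c * D) := by
      have h1 : ∀ a ∈ box k D, ((W a).card : ℝ) ≤ (if Function.Injective a ∧ c * D ≤ ((W a).card : ℝ)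
          then (D : ℝ) else 0) + (if ¬ Function.Injective a then (D : ℝ) else 0) + c * D := by
        intro a _
        have hcD0 : 0 ≤ c * (D : ℝ) := by positivity
        by_cases hi : Function.Injective a
        · by_cases hw : c * D ≤ ((W a).card : ℝ)
          · rw [if_pos ⟨hi, hw⟩, if_neg (not_not.mpr hi)]
            have := hWD a
            linarith
          · rw [if_neg (fun h => hw h.2), if_neg (not_not.mpr hi)]
            push Not at hw
            linarith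
        · rw [if_neg (fun h => hi h.1), if_pos hi]
          have := hWD a
          linarith
      refine (sum_le_sum h1).trans ?_
      rw [sum_add_distrib, sum_add_distrib, ← sum_filter, ← sum_filter, sum_const, sum_const,
        sum_const, nsmul_eq_mul, nsmul_eq_mul, nsmul_eq_mul, box_card]
      push_cast
      exact le_rfl
    have h2 := hsum.trans hsplit
    have h3 := mul_le_mul_of_nonneg_right hinj hD0.le
    have h4 : (D : ℝ) ^ k * (c * D) ≤ c' / 4 * ((D : ℝ) ^ k * D) := by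
      have := mul_le_mul_of_nonneg_right a1 (by positivity : (0 : ℝ) ≤ (D : ℝ) ^ k * D)
      linarith
    have h5 : (D : ℝ) ^ (k + 1) = D ^ k * D := pow_succ _ _
    rw [h5] at h2
    have h6 : c * (D : ℝ) ^ k * D ≤ (B'.card : ℝ) * D := by
      have h7 := mul_le_mul_of_nonneg_right a1 (by positivity : (0 : ℝ) ≤ (D : ℝ) ^ k * D)
      nlinarith
    exact le_of_mul_le_mul_right h6 hD0
  refine hcount.trans ?_
  have hfin2 : ({a : Fin k → ℕ | (∀ i, 1 ≤ a i ∧ a i ≤ D) ∧ Function.Injective a ∧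
        c * D ≤ ({t : ℕ | D < t ∧ t ≤ 2 * D ∧ ∀ X : ℝ,
          1 / c * Q ≤ X → X ≤ c * D →
          (1 - δ) * (X / Q) ≤
            (((Ioc t (t + ⌊X⌋₊)).filter (fun n => n.Prime ∧ ∀ i, (n + a i).Prime)).card : ℝ) ∧
          (((Ioc t (t + ⌊X⌋₊)).filter (fun n => n.Prime ∧ ∀ i, (n + a i).Prime)).card : ℝ) ≤
            1 / c * (X / Q)}.ncard : ℝ)}).Finite := by
    apply (box k D).finite_toSet.subset
    intro a ha
    rw [mem_coe]
    unfold box
    rw [Fintype.mem_piFinset]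
    intro i
    exact mem_Icc.mpr (ha.1 i)
  have := Set.ncard_le_ncard hB'sub hfin2
  rw [Set.ncard_coe_finset] at this
  exact_mod_cast this

end Pool.Agent.H10.Scale
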