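import Mathlib
set_option autoImplicit false

/-!
One dimensional covering arguments for a finite set `S` of integers.
-/

namespace Pool.Agent.H10.Scale

open Finset

/-- the number of elements of `S` in `(t, t + m]` -/
def cn (S : Finset ℕ) (t m : ℕ) : ℕ := ((Ioc t (t + m)).filter (fun n => n ∈ S)).card

/-- greedy covering -/
theorem cover (h : ℕ → ℕ) : ∀ (k : ℕ) (B : Finset ℕ), B.card ≤ k → (∀ n ∈ B, 1 ≤ h n) →
    ∃ D ⊆ B, (∀ n ∈ D, ∀ n' ∈ D, n < n' → n + h n ≤ n') ∧
      ∀ b ∈ B, ∃ n ∈ D, n ≤ b ∧ b < n + h n := by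
  intro k
  induction k with
  | zero =>
    intro B hB _
    have : B = ∅ := card_eq_zero.mp (by omega)
    subst this
    exact ⟨∅, subset_refl _, by simp, by simp⟩
  | succ k ih =>
    intro B hB hh
    rcases B.eq_empty_or_nonempty with rfl | hne
    · exact ⟨∅, subset_refl _, by simp, by simp⟩
    set n0 := B.min' hne with hn0
    have hn0B : n0 ∈ B := B.min'_mem hne
    set B' := B.filter (fun b => n0 + h n0 ≤ b) with hB'
    have hn0B' : n0 ∉ B' := by
      rw [hB', mem_filter]
      rintro ⟨_, h2⟩
      have := hh n0 hn0B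
      omega
    have hcard : B'.card ≤ k := by
      have : B' ⊂ B := by
        rw [ssubset_iff_of_subset (filter_subset _ _)]
        exact ⟨n0, hn0B, hn0B'⟩
      have := card_lt_card this
      omega
    obtain ⟨D', hD'B', hD'1, hD'2⟩ := ih B' hcard (fun n hn => hh n (mem_filter.mp hn).1)
    refine ⟨insert n0 D', ?_, ?_, ?_⟩
    · intro n hn
      rw [mem_insert] at hn
      rcases hn with rfl | hn
      · exact hn0B
      · exact (mem_filter.mp (hD'B' hn)).1
    · intro n hn n' hn' hlt
      rw [mem_insert] at hn hn'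
      rcases hn with rfl | hn
      · rcases hn' with rfl | hn'
        · omega
        · exact (mem_filter.mp (hD'B' hn')).2
      · rcases hn' with rfl | hn'
        · have := B.min'_le n (mem_filter.mp (hD'B' hn)).1
          omega
        · exact hD'1 n hn n' hn' hlt
    · intro b hb
      by_cases hlt : n0 + h n0 ≤ b
      · obtain ⟨n, hn, h1, h2⟩ := hD'2 b (mem_filter.mpr ⟨hb, hlt⟩)
        exact ⟨n, mem_insert_of_mem hn, h1, h2⟩
      · exact ⟨n0, mem_insert_self _ _, B.min'_le b hb, by omega⟩

/-- the intervals are disjoint, so the counts add up -/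
theorem sum_cn_le (S : Finset ℕ) (h : ℕ → ℕ) (D : Finset ℕ) (A Z : ℕ)
    (hD : ∀ n ∈ D, ∀ n' ∈ D, n < n' → n + h n ≤ n') (hA : ∀ n ∈ D, A ≤ n)
    (hZ : ∀ n ∈ D, n + h n ≤ Z) :
    ∑ n ∈ D, cn S n (h n) ≤ ((Ioc A Z).filter (fun n => n ∈ S)).card := by
  have hdisj : ∀ n ∈ D, ∀ n' ∈ D, n ≠ n' → Disjoint ((Ioc n (n + h n)).filter (fun n => n ∈ S))
      ((Ioc n' (n' + h n')).filter (fun n => n ∈ S)) := by
    intro n hn n' hn' hne
    rw [disjoint_left]
    intro p hp hp'
    rw [mem_filter, mem_Ioc] at hp hp'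
    rcases lt_or_gt_of_ne hne with hlt | hlt
    · have := hD n hn n' hn' hlt
      omega
    · have := hD n' hn' n hn hlt
      omega
  calc ∑ n ∈ D, cn S n (h n)
      = (D.biUnion (fun n => (Ioc n (n + h n)).filter (fun n => n ∈ S))).card := by
        rw [card_biUnion hdisj]; rfl
    _ ≤ _ := by
        apply card_le_card
        intro p hp
        rw [mem_biUnion] at hp
        obtain ⟨n, hn, hp⟩ := hp
        rw [mem_filter, mem_Ioc] at hp ⊢
        have h1 := hA n hn
        have h2 := hZ n hn
        exact ⟨⟨by omega, by omega⟩, hp.2⟩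

/-- lengths of the disjoint intervals add up -/
theorem sum_len_le (h : ℕ → ℕ) (D : Finset ℕ) (A Y : ℕ)
    (hD : ∀ n ∈ D, ∀ n' ∈ D, n < n' → n + h n ≤ n') (hA : ∀ n ∈ D, A ≤ n)
    (hY : ∀ n ∈ D, n + h n ≤ Y) :
    ∑ n ∈ D, h n ≤ Y - A := by
  have hdisj : ∀ n ∈ D, ∀ n' ∈ D, n ≠ n' → Disjoint (Ioc n (n + h n)) (Ioc n' (n' + h n')) := by
    intro n hn n' hn' hne
    rw [disjoint_left]
    intro p hp hp'
    rw [mem_Ioc] at hp hp'
    rcases lt_or_gt_of_ne hne with hlt | hlt
    · have := hD n hn n' hn' hlt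
      omega
    · have := hD n' hn' n hn hlt
      omega
  calc ∑ n ∈ D, h n = ∑ n ∈ D, (Ioc n (n + h n)).card := by
        apply sum_congr rfl
        intro n _
        rw [Nat.card_Ioc]
        omega
    _ = (D.biUnion (fun n => Ioc n (n + h n))).card := by
        rw [card_biUnion hdisj]
    _ ≤ (Ioc A Y).card := by
        apply card_le_card
        intro p hp
        rw [mem_biUnion] at hp
        obtain ⟨n, hn, hp⟩ := hp
        rw [mem_Ioc] at hp ⊢
        have h1 := hA n hn
        have h2 := hY n hn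
        omega
    _ = Y - A := Nat.card_Ioc _ _

/-- a maximal inequality -/
theorem upper (S B : Finset ℕ) (h : ℕ → ℕ) (A Z : ℕ) (κ : ℝ) (hκ : 0 ≤ κ)
    (hA : ∀ n ∈ B, A ≤ n) (h1 : ∀ n ∈ B, 1 ≤ h n) (hZ : ∀ n ∈ B, n + h n ≤ Z)
    (hc : ∀ n ∈ B, κ * h n ≤ (cn S n (h n) : ℝ)) :
    κ * B.card ≤ (((Ioc A Z).filter (fun n => n ∈ S)).card : ℝ) := by
  obtain ⟨D, hDB, hD1, hD2⟩ := cover h B.card B le_rfl h1
  have hcard : B.card ≤ ∑ n ∈ D, h n := by
    calc B.card ≤ (D.biUnion (fun n => Ico n (n + h n))).card := by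
          apply card_le_card
          intro b hb
          obtain ⟨n, hn, h2, h3⟩ := hD2 b hb
          rw [mem_biUnion]
          exact ⟨n, hn, mem_Ico.mpr ⟨h2, h3⟩⟩
      _ ≤ ∑ n ∈ D, (Ico n (n + h n)).card := card_biUnion_le
      _ = ∑ n ∈ D, h n := by
          apply sum_congr rfl
          intro n _
          rw [Nat.card_Ico]
          omega
  have h2 := sum_cn_le S h D A Z hD1 (fun n hn => hA n (hDB hn)) (fun n hn => hZ n (hDB hn))
  have h2r : (∑ n ∈ D, (cn S n (h n) : ℝ)) ≤ (((Ioc A Z).filter (fun n => n ∈ S)).card : ℝ) := by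
    exact_mod_cast h2
  have hcr : (B.card : ℝ) ≤ ∑ n ∈ D, (h n : ℝ) := by exact_mod_cast hcard
  calc κ * B.card ≤ κ * ∑ n ∈ D, (h n : ℝ) := mul_le_mul_of_nonneg_left hcr hκ
    _ = ∑ n ∈ D, κ * (h n : ℝ) := by rw [mul_sum]
    _ ≤ ∑ n ∈ D, (cn S n (h n) : ℝ) := sum_le_sum fun n hn => hc n (hDB hn)
    _ ≤ _ := h2r

/-- pairs of elements of `S` in `(A, Y]` at distance less than `J` -/
def pairCount (S : Finset ℕ) (A Y J : ℕ) : ℕ :=
  ((((Ioc A Y).filter (fun n => n ∈ S)) ×ˢ ((Ioc A Y).filter (fun n => n ∈ S))).filter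
    (fun x => x.1 ≤ x.2 ∧ x.2 < x.1 + J)).card

/-- the rising sun type lower bound -/
theorem lower (S B : Finset ℕ) (h : ℕ → ℕ) (A Y m0 m1 J : ℕ) (ν lam : ℝ) (hν : 0 ≤ ν)
    (hlam : 0 < lam) (hAY : A ≤ Y) (hJ : 1 ≤ J) (hm0 : 1 ≤ m0)
    (hB : B ⊆ Ioc A Y) (h0 : ∀ n ∈ B, m0 ≤ h n) (h1 : ∀ n ∈ B, h n ≤ m1)
    (hc : ∀ n ∈ B, (cn S n (h n) : ℝ) ≤ ν * h n) :
    (((Ioc A Y).filter (fun n => n ∈ S)).card : ℝ) ≤ ν * ((Y : ℝ) - A + m1)
      + lam * (((Ioc A Y \ B).card : ℝ) / J + 3 * (((Y : ℝ) - A + m1) / m0) + 1)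
      + (pairCount S A Y J : ℝ) / (2 * lam) := by
  classical
  obtain ⟨D, hDB, hD1, hD2⟩ := cover h B.card B le_rfl (fun n hn => hm0.trans (h0 n hn))
  set Ω := Ioc A Y with hΩ
  set T0 := Ω.filter (fun n => n ∈ S) with hT0
  set U := D.biUnion (fun n => Ioc n (n + h n)) with hU
  set R := Ω \ U with hR
  have hDΩ : ∀ n ∈ D, A < n ∧ n ≤ Y := fun n hn => by
    have := hB (hDB hn)
    rw [hΩ, mem_Ioc] at this
    exact this
  have hlen : ∑ n ∈ D, h n ≤ (Y + m1) - A :=
    sum_len_le h D A (Y + m1) hD1 (fun n hn => (hDΩ n hn).1.le) (fun n hn => by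
      have := hDΩ n hn
      have := h1 n (hDB hn)
      omega)
  have hlenr : (∑ n ∈ D, (h n : ℝ)) ≤ (Y : ℝ) - A + m1 := by
    have h2 : ((∑ n ∈ D, h n : ℕ) : ℝ) ≤ (((Y + m1) - A : ℕ) : ℝ) := by exact_mod_cast hlen
    rw [Nat.cast_sub (by omega)] at h2
    push_cast at h2
    linarith
  -- number of selected intervals
  have hDcard : (D.card : ℝ) ≤ ((Y : ℝ) - A + m1) / m0 := by
    have hm0r : (0 : ℝ) < m0 := by exact_mod_cast hm0
    rw [le_div_iff₀ hm0r]
    have h2 : (D.card : ℝ) * m0 ≤ ∑ n ∈ D, (h n : ℝ) := by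
      rw [← nsmul_eq_mul]
      apply card_nsmul_le_sum
      intro n hn
      exact_mod_cast h0 n (hDB hn)
    exact h2.trans hlenr
  -- split the count
  have hsplit : (T0.card : ℝ) ≤ ν * ((Y : ℝ) - A + m1) + ((T0.filter (fun n => n ∈ R)).card : ℝ) := by
    have h2 : T0.card ≤ ∑ n ∈ D, cn S n (h n) + (T0.filter (fun n => n ∈ R)).card := by
      have h3 : T0 ⊆ (D.biUnion (fun n => (Ioc n (n + h n)).filter (fun n => n ∈ S)))
          ∪ T0.filter (fun n => n ∈ R) := by
        intro x hx
        rw [mem_union]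
        by_cases hxU : x ∈ U
        · left
          rw [hU, mem_biUnion] at hxU
          obtain ⟨n, hn, hxn⟩ := hxU
          rw [mem_biUnion]
          exact ⟨n, hn, mem_filter.mpr ⟨hxn, (mem_filter.mp hx).2⟩⟩
        · right
          rw [mem_filter, hR, mem_sdiff]
          exact ⟨hx, (mem_filter.mp hx).1, hxU⟩
      calc T0.card ≤ _ := card_le_card h3
        _ ≤ (D.biUnion (fun n => (Ioc n (n + h n)).filter (fun n => n ∈ S))).card
            + (T0.filter (fun n => n ∈ R)).card := card_union_le _ _
        _ ≤ _ := Nat.add_le_add_right card_biUnion_le _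
    have h2r : (T0.card : ℝ) ≤ ∑ n ∈ D, (cn S n (h n) : ℝ) + ((T0.filter (fun n => n ∈ R)).card : ℝ)
        := by exact_mod_cast h2
    have h3 : ∑ n ∈ D, (cn S n (h n) : ℝ) ≤ ν * ((Y : ℝ) - A + m1) := by
      calc ∑ n ∈ D, (cn S n (h n) : ℝ) ≤ ∑ n ∈ D, ν * (h n : ℝ) :=
            sum_le_sum fun n hn => hc n (hDB hn)
        _ = ν * ∑ n ∈ D, (h n : ℝ) := by rw [mul_sum]
        _ ≤ _ := mul_le_mul_of_nonneg_left hlenr hν
    linarith
  -- size of R
  have hRcard : R.card ≤ (Ω \ B).card + D.card := by
    have h2 : R ⊆ (Ω \ B) ∪ D := by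
      intro x hx
      rw [hR, mem_sdiff] at hx
      rw [mem_union]
      by_cases hxB : x ∈ B
      · right
        obtain ⟨n, hn, h3, h4⟩ := hD2 x hxB
        by_cases hxn : x = n
        · rw [hxn]; exact hn
        · exfalso
          apply hx.2
          rw [hU, mem_biUnion]
          exact ⟨n, hn, mem_Ioc.mpr ⟨by omega, by omega⟩⟩
      · left
        exact mem_sdiff.mpr ⟨hx.1, hxB⟩
    exact (card_le_card h2).trans (card_union_le _ _)
  -- blocks
  set j : ℕ → ℕ := fun x => (x - A - 1) / J with hj
  set T := R.image j with hT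
  set I : ℕ → Finset ℕ := fun i => T0.filter (fun n => j n = i) with hI
  have hTR : ((T0.filter (fun n => n ∈ R)).card : ℝ) ≤ ∑ i ∈ T, ((I i).card : ℝ) := by
    have h2 : (T0.filter (fun n => n ∈ R)) ⊆ T.biUnion I := by
      intro x hx
      rw [mem_filter] at hx
      rw [mem_biUnion]
      exact ⟨j x, mem_image_of_mem j hx.2, mem_filter.mpr ⟨hx.1, rfl⟩⟩
    have h3 := (card_le_card h2).trans card_biUnion_le
    exact_mod_cast h3
  have hamgm : ∀ x : ℝ, x ≤ lam + x ^ 2 / (4 * lam) := by
    intro x
    have h2 : lam + x ^ 2 / (4 * lam) - x = (2 * lam - x) ^ 2 / (4 * lam) := by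
      field_simp
      ring
    have h3 : 0 ≤ (2 * lam - x) ^ 2 / (4 * lam) := by positivity
    linarith
  have hsq : ∑ i ∈ T, ((I i).card : ℝ) ^ 2 ≤ 2 * (pairCount S A Y J : ℝ) := by
    have h2 : ∑ i ∈ T, (I i).card ^ 2 ≤ 2 * pairCount S A Y J := by
      set P := (T0 ×ˢ T0).filter (fun x => x.1 ≤ x.2 ∧ x.2 < x.1 + J) with hP
      set P' := (T0 ×ˢ T0).filter (fun x => x.2 ≤ x.1 ∧ x.1 < x.2 + J) with hP'
      have hPP' : P'.card = P.card := by
        refine card_bij' (fun x _ => (x.2, x.1)) (fun x _ => (x.2, x.1)) ?_ ?_ ?_ ?_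
        · intro x hx
          rw [hP', mem_filter, mem_product] at hx
          rw [hP, mem_filter, mem_product]
          exact ⟨⟨hx.1.2, hx.1.1⟩, hx.2⟩
        · intro x hx
          rw [hP, mem_filter, mem_product] at hx
          rw [hP', mem_filter, mem_product]
          exact ⟨⟨hx.1.2, hx.1.1⟩, hx.2⟩
        · intro x _; rfl
        · intro x _; rfl
      have h3 : T.biUnion (fun i => I i ×ˢ I i) ⊆ P ∪ P' := by
        intro x hx
        rw [mem_biUnion] at hx
        obtain ⟨i, _, hx⟩ := hx
        simp only [mem_product, hI] at hx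
        obtain ⟨hx1, hx2⟩ := hx
        rw [mem_filter] at hx1 hx2
        obtain ⟨h4, h5⟩ := hx1
        obtain ⟨h6, h7⟩ := hx2
        have h8 := (mem_filter.mp h4).1
        have h9 := (mem_filter.mp h6).1
        rw [hΩ, mem_Ioc] at h8 h9
        simp only [hj] at h5 h7
        have hJ0 : 0 < J := hJ
        have d1 := Nat.div_add_mod (x.1 - A - 1) J
        have d2 := Nat.div_add_mod (x.2 - A - 1) J
        have e1 := Nat.mod_lt (x.1 - A - 1) hJ0
        have e2 := Nat.mod_lt (x.2 - A - 1) hJ0
        rw [h5] at d1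
        rw [h7] at d2
        rw [mem_union, hP, hP', mem_filter, mem_filter, mem_product]
        rcases le_total x.1 x.2 with h10 | h10
        · left
          exact ⟨⟨h4, h6⟩, h10, by omega⟩
        · right
          exact ⟨⟨h4, h6⟩, h10, by omega⟩
      have hdisj : ∀ i ∈ T, ∀ i' ∈ T, i ≠ i' → Disjoint (I i ×ˢ I i) (I i' ×ˢ I i') := by
        intro i _ i' _ hne
        rw [disjoint_left]
        intro x hx hx'
        simp only [mem_product, hI] at hx hx'
        have e1 := (mem_filter.mp hx.1).2
        have e2 := (mem_filter.mp hx'.1).2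
        exact hne (e1.symm.trans e2)
      calc ∑ i ∈ T, (I i).card ^ 2 = ∑ i ∈ T, (I i ×ˢ I i).card := by
            apply sum_congr rfl
            intro i _
            rw [card_product, sq]
        _ = (T.biUnion (fun i => I i ×ˢ I i)).card := by rw [card_biUnion hdisj]
        _ ≤ (P ∪ P').card := card_le_card h3
        _ ≤ P.card + P'.card := card_union_le _ _
        _ = 2 * P.card := by rw [hPP']; ring
        _ = 2 * pairCount S A Y J := rfl
    exact_mod_cast h2
  -- number of touched blocks
  have hTcard : (T.card : ℝ) ≤ (R.card : ℝ) / J + 1 + 2 * D.card := by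
    set T1 := T.filter (fun i => Ω.filter (fun x => j x = i) ⊆ R) with hT1
    set T2 := T.filter (fun i => ¬ Ω.filter (fun x => j x = i) ⊆ R) with hT2
    have hTT : T.card = T1.card + T2.card := (card_filter_add_card_filter_not _).symm
    have hT2c : T2.card ≤ 2 * D.card := by
      have h2 : T2 ⊆ D.image j ∪ D.image (fun n => j (n + h n)) := by
        intro i hi
        rw [hT2, mem_filter, hT, mem_image] at hi
        obtain ⟨⟨x, hxR, hxi⟩, hns⟩ := hi
        rw [not_subset] at hns
        obtain ⟨x', hx', hx'R⟩ := hns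
        rw [mem_filter] at hx'
        have hx'U : x' ∈ U := by
          by_contra hcon
          exact hx'R (mem_sdiff.mpr ⟨hx'.1, hcon⟩)
        rw [hU, mem_biUnion] at hx'U
        obtain ⟨n, hn, hx'n⟩ := hx'U
        rw [mem_Ioc] at hx'n
        have hxnU : ¬ (n < x ∧ x ≤ n + h n) := by
          intro hcon
          rw [hR, mem_sdiff] at hxR
          apply hxR.2
          rw [hU, mem_biUnion]
          exact ⟨n, hn, mem_Ioc.mpr hcon⟩
        have hmono : ∀ u v : ℕ, u ≤ v → j u ≤ j v := by
          intro u v huv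
          simp only [hj]
          exact Nat.div_le_div_right (by omega)
        rw [mem_union, mem_image, mem_image]
        rcases Nat.lt_or_ge n x with h3 | h3
        · right
          refine ⟨n, hn, ?_⟩
          have h4 : n + h n < x := by
            by_contra hcon
            exact hxnU ⟨h3, by omega⟩
          have h5 := hmono x' (n + h n) hx'n.2
          have h6 := hmono (n + h n) x h4.le
          rw [hx'.2] at h5
          rw [hxi] at h6
          omega
        · left
          refine ⟨n, hn, ?_⟩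
          have h5 := hmono x n h3
          have h6 := hmono n x' hx'n.1.le
          rw [hx'.2] at h6
          rw [hxi] at h5
          omega
      calc T2.card ≤ _ := card_le_card h2
        _ ≤ (D.image j).card + (D.image (fun n => j (n + h n))).card := card_union_le _ _
        _ ≤ D.card + D.card := Nat.add_le_add card_image_le card_image_le
        _ = 2 * D.card := by ring
    have hT1c : T1.card * J ≤ R.card + J := by
      -- all blocks of `T1` except possibly the last one are full
      set T1' := T1.filter (fun i => A + (i + 1) * J ≤ Y) with hT1'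
      have h2 : T1.card ≤ T1'.card + 1 := by
        have h3 : T1 ⊆ insert (j Y) T1' := by
          intro i hi
          rw [mem_insert]
          by_cases hfull : A + (i + 1) * J ≤ Y
          · right
            exact mem_filter.mpr ⟨hi, hfull⟩
          · left
            rw [hT1, mem_filter, hT, mem_image] at hi
            obtain ⟨⟨x, hxR, hxi⟩, _⟩ := hi
            have hxΩ := (mem_sdiff.mp hxR).1
            rw [hΩ, mem_Ioc] at hxΩ
            have h4 : i ≤ j Y := by
              rw [← hxi]
              simp only [hj]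
              exact Nat.div_le_div_right (by omega)
            have h5 : j Y ≤ i := by
              simp only [hj]
              rw [Nat.div_le_iff_le_mul_add_pred (by omega)]
              push Not at hfull
              have h6 : (i + 1) * J = J * i + J := by ring
              rw [h6] at hfull
              omega
            omega
        exact (card_le_card h3).trans (card_insert_le _ _)
      have h3 : T1'.card * J ≤ R.card := by
        have hdisj : ∀ i ∈ T1', ∀ i' ∈ T1', i ≠ i' →
            Disjoint (Ioc (A + i * J) (A + (i + 1) * J)) (Ioc (A + i' * J) (A + (i' + 1) * J)) := by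
          intro i _ i' _ hne
          rw [disjoint_left]
          intro x hx hx'
          rw [mem_Ioc] at hx hx'
          rcases lt_or_gt_of_ne hne with hlt | hlt
          · have : (i + 1) * J ≤ i' * J := Nat.mul_le_mul_right _ hlt
            omega
          · have : (i' + 1) * J ≤ i * J := Nat.mul_le_mul_right _ hlt
            omega
        calc T1'.card * J = ∑ i ∈ T1', (Ioc (A + i * J) (A + (i + 1) * J)).card := by
              rw [← smul_eq_mul, ← sum_const]
              apply sum_congr rfl
              intro i _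
              rw [Nat.card_Ioc]
              have : (i + 1) * J = i * J + J := by ring
              omega
          _ = (T1'.biUnion (fun i => Ioc (A + i * J) (A + (i + 1) * J))).card := by
              rw [card_biUnion hdisj]
          _ ≤ R.card := by
              apply card_le_card
              intro x hx
              rw [mem_biUnion] at hx
              obtain ⟨i, hi, hx⟩ := hx
              rw [mem_Ioc] at hx
              rw [hT1', mem_filter] at hi
              obtain ⟨hi1, hi2⟩ := hi
              rw [hT1, mem_filter] at hi1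
              apply hi1.2
              rw [mem_filter, hΩ, mem_Ioc]
              refine ⟨⟨by omega, by omega⟩, ?_⟩
              simp only [hj]
              have h6 : (i + 1) * J = i * J + J := by ring
              rw [h6] at hx
              apply Nat.div_eq_of_lt_le
              · omega
              · have : (i + 1) * J = i * J + J := by ring
                omega
      calc T1.card * J ≤ (T1'.card + 1) * J := Nat.mul_le_mul_right _ h2
        _ = T1'.card * J + J := by ring
        _ ≤ R.card + J := by omega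
    have hJr : (0 : ℝ) < J := by exact_mod_cast hJ
    have h2 : (T1.card : ℝ) ≤ (R.card : ℝ) / J + 1 := by
      rw [← sub_le_iff_le_add, le_div_iff₀ hJr]
      have : (T1.card : ℝ) * J ≤ R.card + J := by exact_mod_cast hT1c
      linarith
    have h3 : (T2.card : ℝ) ≤ 2 * D.card := by exact_mod_cast hT2c
    have h4 : (T.card : ℝ) = T1.card + T2.card := by exact_mod_cast hTT
    linarith
  -- assemble
  have hJr : (1 : ℝ) ≤ J := by exact_mod_cast hJ
  have hRr : (R.card : ℝ) ≤ ((Ω \ B).card : ℝ) + D.card := by exact_mod_cast hRcard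
  have hTfin : (T.card : ℝ) ≤ ((Ω \ B).card : ℝ) / J + 3 * (((Y : ℝ) - A + m1) / m0) + 1 := by
    have h2 : (R.card : ℝ) / J ≤ ((Ω \ B).card : ℝ) / J + D.card := by
      calc (R.card : ℝ) / J ≤ (((Ω \ B).card : ℝ) + D.card) / J :=
            div_le_div_of_nonneg_right hRr (by linarith)
        _ = ((Ω \ B).card : ℝ) / J + (D.card : ℝ) / J := by ring
        _ ≤ ((Ω \ B).card : ℝ) / J + D.card := by
            have : (D.card : ℝ) / J ≤ D.card := div_le_self (by positivity) hJr
            linarith
    linarith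
  have hfin : ∑ i ∈ T, ((I i).card : ℝ) ≤ lam * T.card + (pairCount S A Y J : ℝ) / (2 * lam) := by
    calc ∑ i ∈ T, ((I i).card : ℝ) ≤ ∑ i ∈ T, (lam + ((I i).card : ℝ) ^ 2 / (4 * lam)) :=
          sum_le_sum fun i _ => hamgm _
      _ = lam * T.card + (∑ i ∈ T, ((I i).card : ℝ) ^ 2) / (4 * lam) := by
          rw [sum_add_distrib, sum_const, nsmul_eq_mul, sum_div]
          ring
      _ ≤ lam * T.card + (2 * (pairCount S A Y J : ℝ)) / (4 * lam) := by
          have := div_le_div_of_nonneg_right hsq (by positivity : (0 : ℝ) ≤ 4 * lam)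
          linarith
      _ = _ := by
          congr 1
          field_simp
          ring
  have h9 := mul_le_mul_of_nonneg_left hTfin hlam.le
  linarith

end Pool.Agent.H10.Scale
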