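import Pool.Agent.H5.Short.Second
import Pool.Agent.H10.Scale.S1
set_option autoImplicit false

/-!
Moments of the singular factor, and the mean over all shift vectors of the pair count.
-/

namespace Pool.Agent.H10.Scale

open Finset

/-- `∑_{p ∣ d} p ^ (-1/2)` -/
noncomputable def g (d : ℕ) : ℝ := ∑ p ∈ d.primeFactors, 1 / Real.sqrt p

lemma g_nonneg (d : ℕ) : 0 ≤ g d := sum_nonneg fun p _ => by positivity

lemma g_mul_le (p e : ℕ) (hp : p.Prime) (he : e ≠ 0) : g (p * e) ≤ 1 + g e := by
  unfold g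
  have h1 : (p * e).primeFactors ⊆ insert p e.primeFactors := by
    intro q hq
    rw [Nat.primeFactors_mul hp.ne_zero he, mem_union, hp.primeFactors, mem_singleton] at hq
    rw [mem_insert]
    exact hq
  calc ∑ q ∈ (p * e).primeFactors, 1 / Real.sqrt q ≤ ∑ q ∈ insert p e.primeFactors, 1 / Real.sqrt q :=
        sum_le_sum_of_subset_of_nonneg h1 fun q _ _ => by positivity
    _ ≤ 1 / Real.sqrt p + ∑ q ∈ e.primeFactors, 1 / Real.sqrt q := by
        by_cases h : p ∈ e.primeFactors
        · rw [insert_eq_of_mem h]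
          have : 0 ≤ 1 / Real.sqrt (p : ℝ) := by positivity
          linarith
        · rw [sum_insert h]
    _ ≤ 1 + ∑ q ∈ e.primeFactors, 1 / Real.sqrt q := by
        have h2 : 1 / Real.sqrt (p : ℝ) ≤ 1 := by
          have h3 : (1 : ℝ) ≤ Real.sqrt p := by
            apply Real.one_le_sqrt.mpr
            exact_mod_cast hp.one_lt.le
          rw [div_le_one (by linarith)]
          exact h3
        linarith

lemma gmom (k : ℕ) : ∀ c : ℝ, 0 ≤ c → ∃ C : ℝ, 0 ≤ C ∧ ∀ m : ℕ,
    ∑ d ∈ Icc 1 m, (c + g d) ^ k ≤ C * m := by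
  have hsum : Summable (fun n : ℕ => 1 / (n : ℝ) ^ ((3 : ℝ) / 2)) :=
    Real.summable_one_div_nat_rpow.mpr (by norm_num)
  set Z := ∑' n : ℕ, 1 / (n : ℝ) ^ ((3 : ℝ) / 2) with hZ
  have hZ0 : 0 ≤ Z := tsum_nonneg fun n => by positivity
  induction k with
  | zero =>
    intro c _
    refine ⟨1, by norm_num, ?_⟩
    intro m
    simp
  | succ k ih =>
    intro c hc
    obtain ⟨C1, hC1, h1⟩ := ih c hc
    obtain ⟨C2, hC2, h2⟩ := ih (c + 1) (by linarith)
    refine ⟨c * C1 + C2 * Z, by positivity, ?_⟩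
    intro m
    have hcg : ∀ d, 0 ≤ c + g d := fun d => add_nonneg hc (g_nonneg d)
    have hsplit : ∑ d ∈ Icc 1 m, (c + g d) ^ (k + 1)
        = c * ∑ d ∈ Icc 1 m, (c + g d) ^ k + ∑ d ∈ Icc 1 m, g d * (c + g d) ^ k := by
      rw [mul_sum, ← sum_add_distrib]
      apply sum_congr rfl
      intro d _
      rw [pow_succ]
      ring
    have hsecond : ∑ d ∈ Icc 1 m, g d * (c + g d) ^ k ≤ C2 * Z * m := by
      calc ∑ d ∈ Icc 1 m, g d * (c + g d) ^ k
          = ∑ d ∈ Icc 1 m, ∑ p ∈ Icc 1 m,
              if p.Prime ∧ p ∣ d then 1 / Real.sqrt p * (c + g d) ^ k else 0 := by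
            apply sum_congr rfl
            intro d hd
            rw [mem_Icc] at hd
            rw [← sum_filter, ← sum_mul]
            congr 1
            unfold g
            apply sum_congr _ (fun _ _ => rfl)
            ext p
            rw [Nat.mem_primeFactors, mem_filter, mem_Icc]
            constructor
            · rintro ⟨h3, h4, _⟩
              exact ⟨⟨h3.one_lt.le, (Nat.le_of_dvd (by omega) h4).trans hd.2⟩, h3, h4⟩
            · rintro ⟨_, h3, h4⟩
              exact ⟨h3, h4, by omega⟩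
        _ = ∑ p ∈ Icc 1 m, ∑ d ∈ Icc 1 m,
              if p.Prime ∧ p ∣ d then 1 / Real.sqrt p * (c + g d) ^ k else 0 := sum_comm
        _ ≤ ∑ p ∈ Icc 1 m, (C2 * m) * (1 / (p : ℝ) ^ ((3 : ℝ) / 2)) := by
            apply sum_le_sum
            intro p hp
            rw [mem_Icc] at hp
            have hp0 : (0 : ℝ) < p := by exact_mod_cast hp.1
            by_cases hpp : p.Prime
            · have h9 : (p : ℝ) ^ ((3 : ℝ) / 2) = p * Real.sqrt p := by
                rw [Real.sqrt_eq_rpow, show (3 : ℝ) / 2 = 1 + 1 / 2 by norm_num, Real.rpow_add hp0,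
                  Real.rpow_one]
              have h3 : ∑ d ∈ Icc 1 m, (if p.Prime ∧ p ∣ d then 1 / Real.sqrt p * (c + g d) ^ k else 0)
                  ≤ ∑ e ∈ Icc 1 (m / p), 1 / Real.sqrt p * (c + g (p * e)) ^ k := by
                rw [← sum_filter]
                have h4 : (Icc 1 m).filter (fun d => p.Prime ∧ p ∣ d)
                    ⊆ (Icc 1 (m / p)).image (fun e => p * e) := by
                  intro d hd
                  rw [mem_filter, mem_Icc] at hd
                  obtain ⟨⟨hd1, hd2⟩, _, ⟨e, rfl⟩⟩ := hd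
                  rw [mem_image]
                  refine ⟨e, ?_, rfl⟩
                  rw [mem_Icc]
                  constructor
                  · rcases Nat.eq_zero_or_pos e with h0 | h0
                    · subst h0; simp at hd1
                    · exact h0
                  · rw [Nat.le_div_iff_mul_le hpp.pos, mul_comm]
                    exact hd2
                refine (sum_le_sum_of_subset_of_nonneg h4 (fun d _ _ =>
                  mul_nonneg (by positivity) (pow_nonneg (hcg d) _))).trans ?_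
                rw [sum_image]
                intro a _ b _ hab
                exact Nat.eq_of_mul_eq_mul_left hpp.pos hab
              refine h3.trans ?_
              rw [← mul_sum]
              have h5 : ∑ e ∈ Icc 1 (m / p), (c + g (p * e)) ^ k ≤ C2 * (m / p) := by
                calc ∑ e ∈ Icc 1 (m / p), (c + g (p * e)) ^ k
                    ≤ ∑ e ∈ Icc 1 (m / p), (c + 1 + g e) ^ k := by
                      apply sum_le_sum
                      intro e he
                      rw [mem_Icc] at he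
                      apply pow_le_pow_left₀ (hcg _)
                      have := g_mul_le p e hpp (by omega)
                      linarith
                  _ ≤ C2 * ((m / p : ℕ) : ℝ) := h2 _
                  _ ≤ C2 * (m / p) := mul_le_mul_of_nonneg_left Nat.cast_div_le hC2
              rw [h9]
              calc 1 / Real.sqrt p * ∑ e ∈ Icc 1 (m / p), (c + g (p * e)) ^ k
                  ≤ 1 / Real.sqrt p * (C2 * (m / p)) :=
                    mul_le_mul_of_nonneg_left h5 (by positivity)
                _ = C2 * m * (1 / (p * Real.sqrt p)) := by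
                    have : Real.sqrt (p : ℝ) ≠ 0 := (Real.sqrt_pos.mpr hp0).ne'
                    field_simp
            · have h3 : ∑ d ∈ Icc 1 m, (if p.Prime ∧ p ∣ d then 1 / Real.sqrt p * (c + g d) ^ k else 0)
                  = 0 := by
                apply sum_eq_zero
                intro d _
                rw [if_neg (fun h => hpp h.1)]
              rw [h3]
              positivity
        _ = C2 * m * ∑ p ∈ Icc 1 m, (1 / (p : ℝ) ^ ((3 : ℝ) / 2)) := by rw [mul_sum]
        _ ≤ C2 * m * Z := by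
            apply mul_le_mul_of_nonneg_left _ (by positivity)
            exact hsum.sum_le_tsum (Icc 1 m) (fun n _ => by positivity)
        _ = C2 * Z * m := by ring
    rw [hsplit]
    have := mul_le_mul_of_nonneg_left (h1 m) hc
    linarith

/-- the weight in the pair bound -/
noncomputable def w (d : ℕ) : ℝ := 1 + ∑ p ∈ (2 * d).primeFactors, 1 / Real.sqrt p

lemma w_le (d : ℕ) (hd : d ≠ 0) : w d ≤ 2 + g d := by
  have := g_mul_le 2 d Nat.prime_two hd
  unfold w
  unfold g at this
  unfold g
  linarith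

lemma w_nonneg (d : ℕ) : 0 ≤ w d :=
  add_nonneg zero_le_one (sum_nonneg fun p _ => by positivity)

lemma wmom (k : ℕ) : ∃ C : ℝ, 0 ≤ C ∧ ∀ m : ℕ, ∑ d ∈ Icc 1 m, (w d) ^ k ≤ C * m := by
  obtain ⟨C, hC, h⟩ := gmom k 2 (by norm_num)
  refine ⟨C, hC, ?_⟩
  intro m
  refine le_trans ?_ (h m)
  apply sum_le_sum
  intro d hd
  rw [mem_Icc] at hd
  exact pow_le_pow_left₀ (w_nonneg d) (w_le d (by omega)) k

/-- integers `n ∈ (D, 3 D]` with `n` and all `n + a i` prime -/
def SS {k : ℕ} (D : ℕ) (a : Fin k → ℕ) : Finset ℕ :=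
  (Ioc D (3 * D)).filter (fun n => n.Prime ∧ ∀ i, (n + a i).Prime)

/-- the shift vectors -/
def box (k D : ℕ) : Finset (Fin k → ℕ) := Fintype.piFinset (fun _ => Icc 1 D)

lemma pairCount_le (S : Finset ℕ) (A Y J : ℕ) :
    pairCount S A Y J ≤ ∑ d ∈ range J, ((Ioc A Y).filter (fun n => n ∈ S ∧ n + d ∈ S)).card := by
  unfold pairCount
  set P := ((((Ioc A Y).filter (fun n => n ∈ S)) ×ˢ ((Ioc A Y).filter (fun n => n ∈ S))).filter
    (fun x => x.1 ≤ x.2 ∧ x.2 < x.1 + J)) with hP
  have h1 : ∀ x ∈ P, x.2 - x.1 ∈ range J := by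
    intro x hx
    rw [hP, mem_filter] at hx
    rw [mem_range]
    omega
  rw [card_eq_sum_card_fiberwise h1]
  apply sum_le_sum
  intro d _
  apply card_le_card_of_injOn (fun x => x.1)
  · intro x hx
    have hx' : x ∈ P.filter (fun x => x.2 - x.1 = d) := hx
    rw [mem_filter, hP, mem_filter, mem_product, mem_filter, mem_filter] at hx'
    obtain ⟨⟨⟨⟨h2, h3⟩, ⟨h4, h5⟩⟩, h6, h7⟩, h8⟩ := hx'
    show x.1 ∈ (Ioc A Y).filter (fun n => n ∈ S ∧ n + d ∈ S)
    rw [mem_filter]
    refine ⟨h2, h3, ?_⟩
    have : x.1 + d = x.2 := by omega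
    rw [this]
    exact h5
  · intro x hx x' hx' he
    have hx1 : x ∈ P.filter (fun x => x.2 - x.1 = d) := hx
    have hx2 : x' ∈ P.filter (fun x => x.2 - x.1 = d) := hx'
    rw [mem_filter, hP, mem_filter] at hx1 hx2
    have he' : x.1 = x'.1 := he
    have h3 : x.2 = x'.2 := by omega
    exact Prod.ext he' h3

lemma swap_sum {k : ℕ} (D J : ℕ) : ∑ a ∈ box k D, (pairCount (SS D a) D (2 * D) J : ℝ)
    ≤ ∑ d ∈ range J, ∑ n ∈ (Ioc D (2 * D)).filter (fun n => n.Prime ∧ (n + d).Prime),
      ((((Icc 1 D).filter (fun b => (n + b).Prime ∧ (n + d + b).Prime)).card : ℝ)) ^ k := by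
  have h1 : ∑ a ∈ box k D, pairCount (SS D a) D (2 * D) J
      ≤ ∑ d ∈ range J, ∑ n ∈ (Ioc D (2 * D)).filter (fun n => n.Prime ∧ (n + d).Prime),
      (((Icc 1 D).filter (fun b => (n + b).Prime ∧ (n + d + b).Prime)).card) ^ k := by
    calc ∑ a ∈ box k D, pairCount (SS D a) D (2 * D) J
        ≤ ∑ a ∈ box k D, ∑ d ∈ range J,
            ((Ioc D (2 * D)).filter (fun n => n ∈ SS D a ∧ n + d ∈ SS D a)).card :=
          sum_le_sum fun a _ => pairCount_le _ _ _ _
      _ = ∑ d ∈ range J, ∑ a ∈ box k D,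
            ((Ioc D (2 * D)).filter (fun n => n ∈ SS D a ∧ n + d ∈ SS D a)).card := sum_comm
      _ ≤ _ := by
          apply sum_le_sum
          intro d _
          calc ∑ a ∈ box k D, ((Ioc D (2 * D)).filter (fun n => n ∈ SS D a ∧ n + d ∈ SS D a)).card
              = ∑ a ∈ box k D, ∑ n ∈ Ioc D (2 * D), if n ∈ SS D a ∧ n + d ∈ SS D a then 1 else 0 := by
                apply sum_congr rfl
                intro a _
                rw [card_filter]
            _ = ∑ n ∈ Ioc D (2 * D), ∑ a ∈ box k D, if n ∈ SS D a ∧ n + d ∈ SS D a then 1 else 0 :=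
                sum_comm
            _ ≤ ∑ n ∈ Ioc D (2 * D), if n.Prime ∧ (n + d).Prime then
                  (((Icc 1 D).filter (fun b => (n + b).Prime ∧ (n + d + b).Prime)).card) ^ k else 0 := by
                apply sum_le_sum
                intro n _
                rw [← card_filter]
                by_cases hn : n.Prime ∧ (n + d).Prime
                · rw [if_pos hn]
                  have h2 : (box k D).filter (fun a => n ∈ SS D a ∧ n + d ∈ SS D a)
                      ⊆ Fintype.piFinset (fun _ : Fin k =>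
                        (Icc 1 D).filter (fun b => (n + b).Prime ∧ (n + d + b).Prime)) := by
                    intro a ha
                    rw [mem_filter] at ha
                    obtain ⟨ha1, ha2, ha3⟩ := ha
                    unfold box at ha1
                    unfold SS at ha2 ha3
                    rw [mem_filter] at ha2 ha3
                    rw [Fintype.mem_piFinset] at ha1 ⊢
                    intro i
                    rw [mem_filter]
                    exact ⟨ha1 i, ha2.2.2 i, ha3.2.2 i⟩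
                  refine (card_le_card h2).trans ?_
                  rw [Fintype.card_piFinset, prod_const, card_univ, Fintype.card_fin]
                · rw [if_neg hn]
                  apply le_of_eq
                  rw [card_eq_zero, filter_eq_empty_iff]
                  rintro a _ ⟨ha2, ha3⟩
                  unfold SS at ha2 ha3
                  rw [mem_filter] at ha2 ha3
                  exact hn ⟨ha2.2.1, ha3.2.1⟩
            _ = _ := by rw [← sum_filter]
  exact_mod_cast h1

/-- mean pair count -/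
theorem energy (k : ℕ) : ∃ C : ℝ, 0 < C ∧ ∀ D J : ℕ, 2 ≤ D → J ≤ D →
    ∑ a ∈ box k D, (pairCount (SS D a) D (2 * D) J : ℝ)
      ≤ C * ((D : ℝ) / Real.log D) ^ (k + 1) * (1 + J / (Real.log D) ^ (k + 1)) := by
  obtain ⟨C1, hC1, hpi⟩ := Pool.Agent.H5.Short.pi_le
  obtain ⟨C2, hC2, hpairs⟩ := Pool.Agent.H5.Short.pairs
  obtain ⟨C3, hC3, hw⟩ := wmom (k + 1)
  refine ⟨(3 * C1) ^ (k + 1) + (3 * C2) ^ (k + 1) * C3, by positivity, ?_⟩
  intro D J hD hJ
  have hDr : (2 : ℝ) ≤ D := by exact_mod_cast hD
  have hD0 : (0 : ℝ) < D := by linarith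
  have hlog : 0 < Real.log D := Real.log_pos (by linarith)
  have hlog3 : Real.log D ≤ Real.log ((3 * D : ℕ) : ℝ) := by
    apply Real.log_le_log hD0
    push_cast
    linarith
  refine (swap_sum D J).trans ?_
  -- bound for the pair counts up to `3 D`
  set Pr : ℕ → ℝ := fun d => (((Icc 1 (3 * D)).filter (fun p => p.Prime ∧ (p + d).Prime)).card : ℝ)
    with hPr
  have hPr0 : ∀ d, 0 ≤ Pr d := fun d => Nat.cast_nonneg _
  have hterm : ∀ d, ∑ n ∈ (Ioc D (2 * D)).filter (fun n => n.Prime ∧ (n + d).Prime),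
      ((((Icc 1 D).filter (fun b => (n + b).Prime ∧ (n + d + b).Prime)).card : ℝ)) ^ k
      ≤ (Pr d) ^ (k + 1) := by
    intro d
    have h1 : ∀ n ∈ (Ioc D (2 * D)).filter (fun n => n.Prime ∧ (n + d).Prime),
        ((((Icc 1 D).filter (fun b => (n + b).Prime ∧ (n + d + b).Prime)).card : ℝ)) ^ k
        ≤ (Pr d) ^ k := by
      intro n hn
      rw [mem_filter, mem_Ioc] at hn
      apply pow_le_pow_left₀ (Nat.cast_nonneg _)
      have h2 : ((Icc 1 D).filter (fun b => (n + b).Prime ∧ (n + d + b).Prime)).card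
          ≤ ((Icc 1 (3 * D)).filter (fun p => p.Prime ∧ (p + d).Prime)).card := by
        apply card_le_card_of_injOn (fun b => n + b)
        · intro b hb
          have hb' : b ∈ (Icc 1 D).filter (fun b => (n + b).Prime ∧ (n + d + b).Prime) := hb
          rw [mem_filter, mem_Icc] at hb'
          show n + b ∈ (Icc 1 (3 * D)).filter (fun p => p.Prime ∧ (p + d).Prime)
          rw [mem_filter, mem_Icc]
          refine ⟨by omega, hb'.2.1, ?_⟩
          have : n + b + d = n + d + b := by ring
          rw [this]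
          exact hb'.2.2
        · intro b _ b' _ h
          have h' : n + b = n + b' := h
          omega
      simp only [hPr]
      exact_mod_cast h2
    refine (sum_le_sum h1).trans ?_
    rw [sum_const, nsmul_eq_mul, pow_succ, mul_comm]
    apply mul_le_mul_of_nonneg_left _ (pow_nonneg (hPr0 d) k)
    have h3 : ((Ioc D (2 * D)).filter (fun n => n.Prime ∧ (n + d).Prime)).card
        ≤ ((Icc 1 (3 * D)).filter (fun p => p.Prime ∧ (p + d).Prime)).card := by
      apply card_le_card
      intro n hn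
      rw [mem_filter, mem_Ioc] at hn
      rw [mem_filter, mem_Icc]
      exact ⟨by omega, hn.2⟩
    simp only [hPr]
    exact_mod_cast h3
  refine (sum_le_sum fun d _ => hterm d).trans ?_
  -- d = 0
  have hzero : (Pr 0) ^ (k + 1) ≤ (3 * C1) ^ (k + 1) * ((D : ℝ) / Real.log D) ^ (k + 1) := by
    rw [← mul_pow]
    apply pow_le_pow_left₀ (hPr0 0)
    have h1 := hpi (3 * D) (by omega)
    have h2 : Pr 0 ≤ (((Icc 1 (3 * D)).filter Nat.Prime).card : ℝ) := by
      simp only [hPr]
      have : ((Icc 1 (3 * D)).filter (fun p => p.Prime ∧ (p + 0).Prime)).card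
          ≤ ((Icc 1 (3 * D)).filter Nat.Prime).card := by
        apply card_le_card
        intro n hn
        rw [mem_filter] at hn ⊢
        exact ⟨hn.1, hn.2.1⟩
      exact_mod_cast this
    refine h2.trans (h1.trans ?_)
    calc C1 * ((3 * D : ℕ) : ℝ) / Real.log ((3 * D : ℕ) : ℝ)
        ≤ C1 * ((3 * D : ℕ) : ℝ) / Real.log D :=
          div_le_div_of_nonneg_left (by positivity) hlog hlog3
      _ = 3 * C1 * (D / Real.log D) := by push_cast; ring
  have hpos : ∀ d ∈ Icc 1 (J - 1), (Pr d) ^ (k + 1)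
      ≤ (3 * C2) ^ (k + 1) * ((D : ℝ) / Real.log D ^ 2) ^ (k + 1) * (w d) ^ (k + 1) := by
    intro d hd
    rw [mem_Icc] at hd
    rw [← mul_pow, ← mul_pow]
    apply pow_le_pow_left₀ (hPr0 d)
    have h1 := hpairs (3 * D) d (by omega) hd.1 (by omega)
    refine h1.trans ?_
    have hw0 := w_nonneg d
    calc C2 * (1 + ∑ p ∈ (2 * d).primeFactors, 1 / Real.sqrt p) * ((3 * D : ℕ) : ℝ)
          / Real.log ((3 * D : ℕ) : ℝ) ^ 2
        ≤ C2 * (1 + ∑ p ∈ (2 * d).primeFactors, 1 / Real.sqrt p) * ((3 * D : ℕ) : ℝ)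
          / Real.log D ^ 2 := by
          apply div_le_div_of_nonneg_left _ (by positivity) (pow_le_pow_left₀ hlog.le hlog3 2)
          exact mul_nonneg (mul_nonneg hC2.le hw0) (Nat.cast_nonneg _)
      _ = 3 * C2 * (D / Real.log D ^ 2) * w d := by
          unfold w
          push_cast
          ring
  have hrange : ∑ d ∈ range J, (Pr d) ^ (k + 1) ≤ (Pr 0) ^ (k + 1)
      + ∑ d ∈ Icc 1 (J - 1), (Pr d) ^ (k + 1) := by
    have h1 : range J ⊆ insert 0 (Icc 1 (J - 1)) := by
      intro d hd
      rw [mem_range] at hd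
      rw [mem_insert, mem_Icc]
      omega
    refine (sum_le_sum_of_subset_of_nonneg h1 fun d _ _ => pow_nonneg (hPr0 d) _).trans ?_
    rw [sum_insert (by simp)]
  refine hrange.trans ?_
  have h5 := sum_le_sum hpos
  rw [← mul_sum] at h5
  have h6 := hw (J - 1)
  have h7 : (((J - 1 : ℕ)) : ℝ) ≤ J := by exact_mod_cast Nat.sub_le J 1
  have h8 : ∑ d ∈ Icc 1 (J - 1), (w d) ^ (k + 1) ≤ C3 * J :=
    h6.trans (mul_le_mul_of_nonneg_left h7 hC3)
  have h9 : (3 * C2) ^ (k + 1) * ((D : ℝ) / Real.log D ^ 2) ^ (k + 1)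
      * ∑ d ∈ Icc 1 (J - 1), (w d) ^ (k + 1)
      ≤ (3 * C2) ^ (k + 1) * ((D : ℝ) / Real.log D ^ 2) ^ (k + 1) * (C3 * J) :=
    mul_le_mul_of_nonneg_left h8 (by positivity)
  have h10 : (3 * C2) ^ (k + 1) * ((D : ℝ) / Real.log D ^ 2) ^ (k + 1) * (C3 * J)
      = (3 * C2) ^ (k + 1) * C3 * ((D : ℝ) / Real.log D) ^ (k + 1) * (J / (Real.log D) ^ (k + 1)) := by
    have e1 : ((D : ℝ) / Real.log D ^ 2) ^ (k + 1)
        = ((D : ℝ) / Real.log D) ^ (k + 1) / (Real.log D) ^ (k + 1) := by
      rw [← div_pow]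
      congr 1
      field_simp
    rw [e1]
    ring
  have hY : 0 ≤ ((D : ℝ) / Real.log D) ^ (k + 1) := by positivity
  have hJ0 : 0 ≤ (J : ℝ) / (Real.log D) ^ (k + 1) := by positivity
  have h11 : ((3 * C1) ^ (k + 1) + (3 * C2) ^ (k + 1) * C3) * ((D : ℝ) / Real.log D) ^ (k + 1)
      * (1 + J / (Real.log D) ^ (k + 1))
      = (3 * C1) ^ (k + 1) * ((D : ℝ) / Real.log D) ^ (k + 1)
        + (3 * C2) ^ (k + 1) * C3 * ((D : ℝ) / Real.log D) ^ (k + 1) * (J / (Real.log D) ^ (k + 1))
        + ((3 * C1) ^ (k + 1) * ((D : ℝ) / Real.log D) ^ (k + 1) * (J / (Real.log D) ^ (k + 1))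
        + (3 * C2) ^ (k + 1) * C3 * ((D : ℝ) / Real.log D) ^ (k + 1)) := by ring
  rw [h11]
  have h12 : 0 ≤ (3 * C1) ^ (k + 1) * ((D : ℝ) / Real.log D) ^ (k + 1) * (J / (Real.log D) ^ (k + 1))
      + (3 * C2) ^ (k + 1) * C3 * ((D : ℝ) / Real.log D) ^ (k + 1) := by positivity
  linarith

end Pool.Agent.H10.Scale
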