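import Pool.Agent.H5.Short.Cover
import Pool.Agent.H10.Scale.S2
set_option autoImplicit false

/-!
The mean number of prime tuples, from the prime number theorem.
-/

namespace Pool.Agent.H10.Scale

open Finset Filter Topology

lemma card_shift (n D : ℕ) : ((Icc 1 D).filter (fun b => (n + b).Prime)).card
    = Pool.Agent.H5.Short.pc n D := by
  unfold Pool.Agent.H5.Short.pc
  apply card_bij (fun b _ => n + b)
  · intro b hb
    rw [mem_filter, mem_Icc] at hb
    rw [mem_filter, mem_Ioc]
    exact ⟨by omega, hb.2⟩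
  · intro a _ b _ h
    omega
  · intro b hb
    rw [mem_filter, mem_Ioc] at hb
    refine ⟨b - n, ?_, by omega⟩
    rw [mem_filter, mem_Icc]
    have : n + (b - n) = b := by omega
    rw [this]
    exact ⟨by omega, hb.2⟩

/-- the mean count as a moment of prime counts -/
lemma mass_eq (k D Y : ℕ) (hY : Y ≤ 3 * D) :
    ∑ a ∈ box k D, ((Ioc D Y).filter (fun n => n ∈ SS D a)).card
      = ∑ n ∈ (Ioc D Y).filter Nat.Prime, (Pool.Agent.H5.Short.pc n D) ^ k := by
  calc ∑ a ∈ box k D, ((Ioc D Y).filter (fun n => n ∈ SS D a)).card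
      = ∑ a ∈ box k D, ∑ n ∈ Ioc D Y, if n ∈ SS D a then 1 else 0 := by
        apply sum_congr rfl
        intro a _
        rw [card_filter]
    _ = ∑ n ∈ Ioc D Y, ∑ a ∈ box k D, if n ∈ SS D a then 1 else 0 := sum_comm
    _ = ∑ n ∈ Ioc D Y, if n.Prime then (Pool.Agent.H5.Short.pc n D) ^ k else 0 := by
        apply sum_congr rfl
        intro n hn
        rw [mem_Ioc] at hn
        rw [← card_filter]
        by_cases hp : n.Prime
        · rw [if_pos hp]
          have h2 : (box k D).filter (fun a => n ∈ SS D a)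
              = Fintype.piFinset (fun _ : Fin k => (Icc 1 D).filter (fun b => (n + b).Prime)) := by
            ext a
            rw [mem_filter]
            unfold box SS
            rw [Fintype.mem_piFinset, Fintype.mem_piFinset, mem_filter, mem_Ioc]
            constructor
            · rintro ⟨h1, _, _, h3⟩ i
              exact mem_filter.mpr ⟨h1 i, h3 i⟩
            · intro h
              exact ⟨fun i => (mem_filter.mp (h i)).1, ⟨by omega, by omega⟩, hp,
                fun i => (mem_filter.mp (h i)).2⟩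
          rw [h2, Fintype.card_piFinset, prod_const, card_univ, Fintype.card_fin, card_shift]
        · rw [if_neg hp, card_eq_zero, filter_eq_empty_iff]
          intro a _ h
          unfold SS at h
          rw [mem_filter] at h
          exact hp h.2.1
    _ = _ := by rw [← sum_filter]

lemma mass_lower (k : ℕ) (δ : ℝ) (hδ : 0 < δ) (hδ1 : δ < 1) : ∃ D₀ : ℕ, ∀ D ≥ D₀,
    (1 - δ) * ((D : ℝ) / Real.log D) ^ (k + 1)
      ≤ ∑ a ∈ box k D, (((Ioc D (2 * D)).filter (fun n => n ∈ SS D a)).card : ℝ) := by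
  set τ : ℝ := δ / (2 * (k + 1)) with hτ
  have hk1 : (0 : ℝ) < (k : ℝ) + 1 := by positivity
  have hτ0 : 0 < τ := by positivity
  have hτ1 : τ ≤ 1 / 2 := by
    rw [hτ, div_le_iff₀ (by positivity)]
    have : (0 : ℝ) ≤ k := by positivity
    nlinarith
  obtain ⟨X0, hX0⟩ := Pool.Agent.H5.Short.pnt_unif (1 / 2) τ (by norm_num) hτ0
  have hlogev : ∀ᶠ D : ℕ in atTop, Real.log 2 ≤ τ * Real.log D := by
    have h1 : Tendsto (fun D : ℕ => τ * Real.log D) atTop atTop :=
      (Real.tendsto_log_atTop.comp tendsto_natCast_atTop_atTop).const_mul_atTop hτ0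
    exact h1.eventually (eventually_ge_atTop _)
  obtain ⟨X1, hX1⟩ := eventually_atTop.mp hlogev
  refine ⟨max (max X0 X1) 2, ?_⟩
  intro D hD
  have hDX0 : X0 ≤ D := le_trans (le_trans (le_max_left _ _) (le_max_left _ _)) hD
  have hDX1 : X1 ≤ D := le_trans (le_trans (le_max_right _ _) (le_max_left _ _)) hD
  have hD2 : 2 ≤ D := le_trans (le_max_right _ _) hD
  have hDr : (2 : ℝ) ≤ D := by exact_mod_cast hD2
  have hD0 : (0 : ℝ) < D := by linarith
  have hL : 0 < Real.log D := Real.log_pos (by linarith)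
  set L := Real.log D with hLdef
  have hmass := mass_eq k D (2 * D) (by omega)
  have hmassr : ∑ a ∈ box k D, (((Ioc D (2 * D)).filter (fun n => n ∈ SS D a)).card : ℝ)
      = ∑ n ∈ (Ioc D (2 * D)).filter Nat.Prime, (Pool.Agent.H5.Short.pc n D : ℝ) ^ k := by
    exact_mod_cast hmass
  rw [hmassr]
  set q : ℝ := (1 - 2 * τ) * (D / L) with hq
  have hq0 : 0 ≤ q := mul_nonneg (by linarith) (by positivity)
  have hpc : ∀ n : ℕ, D ≤ n → n ≤ 2 * D → q ≤ (Pool.Agent.H5.Short.pc n D : ℝ) := by
    intro n hn1 hn2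
    have hn1r : (D : ℝ) ≤ n := by exact_mod_cast hn1
    have hn2r : (n : ℝ) ≤ 2 * D := by exact_mod_cast hn2
    have h1 := (hX0 n D (by omega) (by linarith) (by omega)).1
    have h2 : Real.log n ≤ (1 + τ) * L := by
      have h3 : Real.log n ≤ Real.log (2 * D) := Real.log_le_log (by linarith) hn2r
      rw [Real.log_mul (by norm_num) hD0.ne'] at h3
      have := hX1 D hDX1
      linarith
    have h4 : (1 - τ) * D ≤ (Pool.Agent.H5.Short.pc n D : ℝ) * ((1 + τ) * L) :=
      h1.trans (mul_le_mul_of_nonneg_left h2 (Nat.cast_nonneg _))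
    rw [hq, ← mul_div_assoc, div_le_iff₀ hL]
    have h5 : (1 - 2 * τ) * D * (1 + τ) ≤ (Pool.Agent.H5.Short.pc n D : ℝ) * L * (1 + τ) := by
      have h6 : (1 - 2 * τ) * (1 + τ) ≤ 1 - τ := by nlinarith
      have h7 := mul_le_mul_of_nonneg_right h6 hD0.le
      linarith [h7, h4, (by ring : (1 - 2 * τ) * D * (1 + τ) = (1 - 2 * τ) * (1 + τ) * D),
        (by ring : (Pool.Agent.H5.Short.pc n D : ℝ) * L * (1 + τ)
          = (Pool.Agent.H5.Short.pc n D : ℝ) * ((1 + τ) * L))]
    exact le_of_mul_le_mul_right h5 (by linarith)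
  have h1 : ∑ n ∈ (Ioc D (2 * D)).filter Nat.Prime, q ^ k
      ≤ ∑ n ∈ (Ioc D (2 * D)).filter Nat.Prime, (Pool.Agent.H5.Short.pc n D : ℝ) ^ k := by
    apply sum_le_sum
    intro n hn
    rw [mem_filter, mem_Ioc] at hn
    exact pow_le_pow_left₀ hq0 (hpc n (by omega) hn.1.2) k
  refine le_trans ?_ h1
  rw [sum_const, nsmul_eq_mul]
  have h2 : q ≤ (((Ioc D (2 * D)).filter Nat.Prime).card : ℝ) := by
    have := hpc D le_rfl (by omega)
    unfold Pool.Agent.H5.Short.pc at this
    have e : D + D = 2 * D := by ring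
    rw [e] at this
    exact this
  calc (1 - δ) * ((D : ℝ) / L) ^ (k + 1) ≤ (1 - 2 * τ) ^ (k + 1) * ((D : ℝ) / L) ^ (k + 1) := by
        apply mul_le_mul_of_nonneg_right _ (by positivity)
        have h3 := one_add_mul_le_pow (a := -(2 * τ)) (by linarith) (k + 1)
        have h4 : 1 + ((k + 1 : ℕ) : ℝ) * -(2 * τ) = 1 - δ := by
          rw [hτ]
          push_cast
          field_simp
          ring
        rw [h4] at h3
        have h5 : 1 + -(2 * τ) = 1 - 2 * τ := by ring
        rw [h5] at h3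
        exact h3
    _ = q ^ (k + 1) := by rw [hq, mul_pow]
    _ = q * q ^ k := by rw [pow_succ]; ring
    _ ≤ _ := mul_le_mul_of_nonneg_right h2 (pow_nonneg hq0 k)

lemma mass_upper (k : ℕ) : ∃ C : ℝ, 0 < C ∧ ∀ D : ℕ, 2 ≤ D →
    ∑ a ∈ box k D, (((Ioc D (3 * D)).filter (fun n => n ∈ SS D a)).card : ℝ)
      ≤ C * ((D : ℝ) / Real.log D) ^ (k + 1) := by
  obtain ⟨C1, hC1, hpi⟩ := Pool.Agent.H5.Short.pi_le
  refine ⟨(4 * C1) ^ (k + 1), by positivity, ?_⟩
  intro D hD
  have hDr : (2 : ℝ) ≤ D := by exact_mod_cast hD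
  have hD0 : (0 : ℝ) < D := by linarith
  have hL : 0 < Real.log D := Real.log_pos (by linarith)
  have hmass := mass_eq k D (3 * D) le_rfl
  have hmassr : ∑ a ∈ box k D, (((Ioc D (3 * D)).filter (fun n => n ∈ SS D a)).card : ℝ)
      = ∑ n ∈ (Ioc D (3 * D)).filter Nat.Prime, (Pool.Agent.H5.Short.pc n D : ℝ) ^ k := by
    exact_mod_cast hmass
  rw [hmassr]
  set P := (((Icc 1 (4 * D)).filter Nat.Prime).card : ℝ) with hP
  have hP0 : 0 ≤ P := Nat.cast_nonneg _
  have hPle : P ≤ 4 * C1 * (D / Real.log D) := by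
    have h1 := hpi (4 * D) (by omega)
    refine h1.trans ?_
    have hlog3 : Real.log D ≤ Real.log ((4 * D : ℕ) : ℝ) := by
      apply Real.log_le_log hD0
      push_cast
      linarith
    calc C1 * ((4 * D : ℕ) : ℝ) / Real.log ((4 * D : ℕ) : ℝ)
        ≤ C1 * ((4 * D : ℕ) : ℝ) / Real.log D :=
          div_le_div_of_nonneg_left (by positivity) hL hlog3
      _ = 4 * C1 * (D / Real.log D) := by push_cast; ring
  have hpc : ∀ n : ℕ, n ≤ 3 * D → (Pool.Agent.H5.Short.pc n D : ℝ) ≤ P := by
    intro n hn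
    rw [hP]
    have : Pool.Agent.H5.Short.pc n D ≤ ((Icc 1 (4 * D)).filter Nat.Prime).card := by
      unfold Pool.Agent.H5.Short.pc
      apply card_le_card
      intro p hp
      rw [mem_filter, mem_Ioc] at hp
      rw [mem_filter, mem_Icc]
      exact ⟨by omega, hp.2⟩
    exact_mod_cast this
  calc ∑ n ∈ (Ioc D (3 * D)).filter Nat.Prime, (Pool.Agent.H5.Short.pc n D : ℝ) ^ k
      ≤ ∑ n ∈ (Ioc D (3 * D)).filter Nat.Prime, P ^ k := by
        apply sum_le_sum
        intro n hn
        rw [mem_filter, mem_Ioc] at hn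
        exact pow_le_pow_left₀ (Nat.cast_nonneg _) (hpc n hn.1.2) k
    _ = (((Ioc D (3 * D)).filter Nat.Prime).card : ℝ) * P ^ k := by rw [sum_const, nsmul_eq_mul]
    _ ≤ P * P ^ k := by
        apply mul_le_mul_of_nonneg_right _ (pow_nonneg hP0 k)
        rw [hP]
        have : ((Ioc D (3 * D)).filter Nat.Prime).card ≤ ((Icc 1 (4 * D)).filter Nat.Prime).card := by
          apply card_le_card
          intro p hp
          rw [mem_filter, mem_Ioc] at hp
          rw [mem_filter, mem_Icc]
          exact ⟨by omega, hp.2⟩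
        exact_mod_cast this
    _ = P ^ (k + 1) := by rw [pow_succ]; ring
    _ ≤ (4 * C1 * (D / Real.log D)) ^ (k + 1) := pow_le_pow_left₀ hP0 hPle _
    _ = _ := by rw [mul_pow]

/-- most shift vectors have distinct entries -/
lemma inj_card (k D : ℕ) : ((D + 1 - k) ^ k : ℕ) ≤ ((box k D).filter Function.Injective).card := by
  classical
  refine (Nat.pow_sub_le_descFactorial D k).trans ?_
  have h1 : D.descFactorial k = Fintype.card (Fin k ↪ Fin D) := by
    rw [Fintype.card_embedding_eq, Fintype.card_fin, Fintype.card_fin]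
  rw [h1, ← card_univ]
  apply card_le_card_of_injOn (fun e => fun i => (e i : ℕ) + 1)
  · intro e _
    show (fun i => (e i : ℕ) + 1) ∈ (box k D).filter Function.Injective
    rw [mem_filter]
    constructor
    · unfold box
      rw [Fintype.mem_piFinset]
      intro i
      rw [mem_Icc]
      have := (e i).2
      omega
    · intro i j hij
      have h2 : (e i : ℕ) + 1 = (e j : ℕ) + 1 := hij
      exact e.injective (Fin.ext (by omega))
  · intro e _ e' _ h
    ext i
    have := congrFun h i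
    have h2 : (e i : ℕ) + 1 = (e' i : ℕ) + 1 := this
    omega

end Pool.Agent.H10.Scale
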