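import Pool.Agent.H10.Scale.S3
set_option autoImplicit false

namespace Pool.Agent.H10.Scale

open Finset Filter Topology

lemma ev_logpow (A : ℝ) (hA : 0 < A) (k : ℕ) :
    ∀ᶠ D : ℕ in atTop, A * (Real.log D) ^ k ≤ D := by
  have h1 : (fun x : ℝ => Real.log x ^ k) =o[atTop] (id : ℝ → ℝ) := Real.isLittleO_pow_log_id_atTop
  have h2 := tendsto_natCast_atTop_atTop.eventually (h1.bound (c := 1 / A) (by positivity))
  filter_upwards [h2] with l hl
  have h3 : ‖(id (l : ℝ))‖ = (l : ℝ) := by simp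
  rw [h3] at hl
  have h4 := (le_abs_self _).trans hl
  have h5 := mul_le_mul_of_nonneg_left h4 hA.le
  have h6 : A * (1 / A * (l : ℝ)) = l := by field_simp
  rw [h6] at h5
  exact h5

lemma box_card (k D : ℕ) : (box k D).card = D ^ k := by
  unfold box
  rw [Fintype.card_piFinset, prod_const, card_univ, Fintype.card_fin, Nat.card_Icc]
  simp

/-- the starting points where the count is of the right order at all scales -/
def good {k : ℕ} (D : ℕ) (a : Fin k → ℕ) (ν κ X0 X1 : ℝ) : Set ℕ :=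
  {t : ℕ | D < t ∧ t ≤ 2 * D ∧ ∀ m : ℕ, X0 ≤ m → (m : ℝ) ≤ X1 →
    ν * m ≤ (cn (SS D a) t m : ℝ) ∧ (cn (SS D a) t m : ℝ) ≤ κ * m}

open Classical in
lemma core (k : ℕ) (δ : ℝ) (hδ : 0 < δ) (hδ1 : δ < 1) :
    ∃ C0 c1 κ c' : ℝ, 0 < C0 ∧ 0 < c1 ∧ 0 < κ ∧ 0 < c' ∧ c1 ≤ 1 / 2 ∧ ∃ D₀ : ℕ, ∀ D ≥ D₀,
      c' * (D : ℝ) ^ (k + 1) ≤ ∑ a ∈ box k D,
        (((Ioc D (2 * D)).filter (fun t => t ∈ good D a ((1 - δ / 2) / (Real.log D) ^ (k + 1))
          (κ / (Real.log D) ^ (k + 1)) (C0 * (Real.log D) ^ (k + 1)) (c1 * D))).card : ℝ) := by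
  obtain ⟨C1, hC1, hen⟩ := energy k
  obtain ⟨C2, hC2, hmu⟩ := mass_upper k
  obtain ⟨D1, hml⟩ := mass_lower k (δ / 8) (by positivity) (by linarith)
  set lam := 12 * C1 / δ with hlam
  have hlam0 : 0 < lam := by positivity
  set C0 := 96 * lam / δ with hC0
  have hC00 : 0 < C0 := by positivity
  set c1 := δ / 8 with hc1
  have hc10 : 0 < c1 := by positivity
  set c2 := δ / (32 * lam) with hc2
  have hc20 : 0 < c2 := by positivity
  set κ := 2 * C2 / c2 with hκ
  have hκ0 : 0 < κ := by positivity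
  have hev := (((ev_logpow 2 (by norm_num) (k + 1)).and
    (ev_logpow (32 * lam / δ) (by positivity) (k + 1))).and
    ((Real.tendsto_log_atTop.comp tendsto_natCast_atTop_atTop).eventually (eventually_ge_atTop 1))).and
    (eventually_ge_atTop (max D1 2))
  obtain ⟨D₀, hD₀⟩ := eventually_atTop.mp hev
  refine ⟨C0, c1, κ, c2 / 2, hC00, hc10, hκ0, by positivity, by rw [hc1]; linarith, D₀, ?_⟩
  intro D hD
  obtain ⟨⟨⟨hA1, hA2⟩, hA3⟩, hA4⟩ := hD₀ D hD
  have hA3' : (1 : ℝ) ≤ Real.log D := hA3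
  have hDD1 : D1 ≤ D := le_trans (le_max_left _ _) hA4
  have hD2 : 2 ≤ D := le_trans (le_max_right _ _) hA4
  have hDr : (2 : ℝ) ≤ D := by exact_mod_cast hD2
  have hD0 : (0 : ℝ) < D := by linarith
  set L := Real.log (D : ℝ) with hL
  have hL0 : 0 < L := by linarith
  set Q := L ^ (k + 1) with hQ
  have hQ1 : 1 ≤ Q := one_le_pow₀ hA3'
  have hQ0 : 0 < Q := by linarith
  set Y := (D : ℝ) ^ (k + 1) / Q with hY
  have hYeq : ((D : ℝ) / L) ^ (k + 1) = Y := by rw [hY, hQ, div_pow]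
  have hDk : (0 : ℝ) < (D : ℝ) ^ k := by positivity
  have hDk1 : (D : ℝ) ^ (k + 1) = D ^ k * D := pow_succ _ _
  have hY0 : 0 < Y := by positivity
  set J := ⌈Q⌉₊ with hJ
  have hJ1 : 1 ≤ J := Nat.one_le_ceil_iff.mpr hQ0
  have hJQ : Q ≤ J := Nat.le_ceil Q
  have hJQ2 : (J : ℝ) ≤ 2 * Q := by
    have := Nat.ceil_lt_add_one hQ0.le
    linarith
  have hJD : J ≤ D := by
    have : (J : ℝ) ≤ D := hJQ2.trans hA1
    exact_mod_cast this
  set m0 := ⌈C0 * Q⌉₊ with hm0
  have hm01 : 1 ≤ m0 := Nat.one_le_ceil_iff.mpr (by positivity)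
  have hm0r : C0 * Q ≤ m0 := Nat.le_ceil _
  set m1 := ⌊c1 * (D : ℝ)⌋₊ with hm1
  have hm1r : (m1 : ℝ) ≤ c1 * D := Nat.floor_le (by positivity)
  have hm1D : m1 ≤ D := by
    have : (m1 : ℝ) ≤ D := by
      refine hm1r.trans ?_
      rw [hc1]
      nlinarith
    exact_mod_cast this
  set ν := (1 - δ / 2) / Q with hν
  have hν0 : 0 ≤ ν := div_nonneg (by linarith) hQ0.le
  set Ω := Ioc D (2 * D) with hΩ
  set BL : (Fin k → ℕ) → Finset ℕ := fun a => Ω.filter (fun t => ∃ m : ℕ, C0 * Q ≤ m ∧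
    (m : ℝ) ≤ c1 * D ∧ (cn (SS D a) t m : ℝ) < ν * m) with hBL
  set BU : (Fin k → ℕ) → Finset ℕ := fun a => Ω.filter (fun t => ∃ m : ℕ, C0 * Q ≤ m ∧
    (m : ℝ) ≤ c1 * D ∧ κ / Q * m < (cn (SS D a) t m : ℝ)) with hBU
  -- lower half
  have hlow : ∀ a ∈ box k D, ((Ω.filter (fun n => n ∈ SS D a)).card : ℝ)
      ≤ ν * ((1 + c1) * D) + lam * (((Ω \ BL a).card : ℝ) / J + 6 * D / (C0 * Q) + 1)
        + (pairCount (SS D a) D (2 * D) J : ℝ) / (2 * lam) := by
    intro a _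
    have hex : ∀ t : ℕ, ∃ m : ℕ, t ∈ BL a → (C0 * Q ≤ m ∧
        (m : ℝ) ≤ c1 * D ∧ (cn (SS D a) t m : ℝ) < ν * m) := by
      intro t
      by_cases ht : t ∈ BL a
      · obtain ⟨m, hm⟩ := (mem_filter.mp ht).2
        exact ⟨m, fun _ => hm⟩
      · exact ⟨0, fun h => absurd h ht⟩
    choose h hh using hex
    have h1 := lower (SS D a) (BL a) h D (2 * D) m0 m1 J ν lam hν0 hlam0 (by omega) hJ1 hm01
      (filter_subset _ _) (fun n hn => Nat.ceil_le.mpr (hh n hn).1)
      (fun n hn => Nat.le_floor (hh n hn).2.1) (fun n hn => (hh n hn).2.2.le)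
    have e1 : (((2 * D : ℕ) : ℝ) - D + m1) ≤ (1 + c1) * D := by
      push_cast
      linarith
    have e0 : (0 : ℝ) ≤ (((2 * D : ℕ) : ℝ) - D + m1) := by
      push_cast
      have : (0 : ℝ) ≤ m1 := Nat.cast_nonneg _
      linarith
    have e2 : ν * (((2 * D : ℕ) : ℝ) - D + m1) ≤ ν * ((1 + c1) * D) :=
      mul_le_mul_of_nonneg_left e1 hν0
    have e3 : 3 * ((((2 * D : ℕ) : ℝ) - D + m1) / m0) ≤ 6 * D / (C0 * Q) := by
      have e4 : (((2 * D : ℕ) : ℝ) - D + m1) ≤ 2 * D := by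
        refine e1.trans ?_
        rw [hc1]
        nlinarith
      have e5 : (((2 * D : ℕ) : ℝ) - D + m1) / m0 ≤ 2 * D / (C0 * Q) := by
        apply div_le_div₀ (by linarith) e4 (by positivity) hm0r
      calc 3 * ((((2 * D : ℕ) : ℝ) - D + m1) / m0) ≤ 3 * (2 * D / (C0 * Q)) := by linarith
        _ = 6 * D / (C0 * Q) := by ring
    have e6 := mul_le_mul_of_nonneg_left e3 hlam0.le
    have e7 : lam * (((Ω \ BL a).card : ℝ) / J + 3 * ((((2 * D : ℕ) : ℝ) - D + m1) / m0) + 1)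
        ≤ lam * (((Ω \ BL a).card : ℝ) / J + 6 * D / (C0 * Q) + 1) := by
      apply mul_le_mul_of_nonneg_left _ hlam0.le
      linarith
    linarith
  have hlowsum := sum_le_sum hlow
  have hmass := hml D hDD1
  rw [hYeq, ← hΩ] at hmass
  have hmass' : (1 - δ / 8) * Y ≤ ∑ a ∈ box k D, ((Ω.filter (fun n => n ∈ SS D a)).card : ℝ) := by
    rw [← hc1]
    exact hmass
  have hGsum : c2 * (D : ℝ) ^ (k + 1) ≤ ∑ a ∈ box k D, ((Ω \ BL a).card : ℝ) := by
    set G := ∑ a ∈ box k D, ((Ω \ BL a).card : ℝ) with hG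
    set P := ∑ a ∈ box k D, (pairCount (SS D a) D (2 * D) J : ℝ) with hP
    have hbc : ((box k D).card : ℝ) = (D : ℝ) ^ k := by
      rw [box_card]
      push_cast
      rfl
    have hrhs : ∑ a ∈ box k D, (ν * ((1 + c1) * D) + lam * (((Ω \ BL a).card : ℝ) / J
        + 6 * D / (C0 * Q) + 1) + (pairCount (SS D a) D (2 * D) J : ℝ) / (2 * lam))
        = (D : ℝ) ^ k * (ν * ((1 + c1) * D)) + lam * (G / J + (D : ℝ) ^ k * (6 * D / (C0 * Q))
          + (D : ℝ) ^ k) + P / (2 * lam) := by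
      rw [sum_add_distrib, sum_add_distrib, sum_const, nsmul_eq_mul, hbc, ← mul_sum,
        sum_add_distrib, sum_add_distrib, sum_const, sum_const, nsmul_eq_mul, nsmul_eq_mul, hbc,
        ← sum_div, ← sum_div, mul_one]
    rw [hrhs] at hlowsum
    have hen' := hen D J hD2 hJD
    rw [hYeq] at hen'
    have hP1 : P ≤ 3 * C1 * Y := by
      refine hen'.trans ?_
      have e1 : (J : ℝ) / Q ≤ 2 := by
        rw [div_le_iff₀ hQ0]
        exact hJQ2
      have e2 : 0 ≤ C1 * Y := by positivity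
      have e3 := mul_le_mul_of_nonneg_left e1 e2
      linarith
    have hP2 : P / (2 * lam) ≤ δ / 8 * Y := by
      rw [div_le_iff₀ (by positivity), hlam]
      calc P ≤ 3 * C1 * Y := hP1
        _ = δ / 8 * Y * (2 * (12 * C1 / δ)) := by
            field_simp
            ring
    have h1 : (D : ℝ) ^ k * (ν * ((1 + c1) * D)) ≤ (1 - 3 * δ / 8) * Y := by
      have e1 : (D : ℝ) ^ k * (ν * ((1 + c1) * D)) = (1 - δ / 2) * (1 + c1) * Y := by
        rw [hν, hY, hDk1]
        field_simp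
      rw [e1]
      apply mul_le_mul_of_nonneg_right _ hY0.le
      rw [hc1]
      nlinarith
    have h2 : lam * ((D : ℝ) ^ k * (6 * D / (C0 * Q))) ≤ δ / 16 * Y := by
      have e1 : lam * ((D : ℝ) ^ k * (6 * D / (C0 * Q))) = 6 * lam / C0 * Y := by
        rw [hY, hDk1]
        field_simp
      rw [e1]
      apply le_of_eq
      congr 1
      rw [hC0]
      field_simp
      norm_num
    have h3 : lam * (D : ℝ) ^ k ≤ δ / 32 * Y := by
      rw [hY, hDk1]
      have e1 : lam * 32 / δ * Q ≤ D := by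
        have : lam * 32 / δ = 32 * lam / δ := by ring
        rw [this]
        exact hA2
      have e2 : lam * (D : ℝ) ^ k * Q ≤ δ / 32 * ((D : ℝ) ^ k * D) := by
        have e3 := mul_le_mul_of_nonneg_left e1 (by positivity : 0 ≤ δ / 32 * (D : ℝ) ^ k)
        have e4 : δ / 32 * (D : ℝ) ^ k * (lam * 32 / δ * Q) = lam * (D : ℝ) ^ k * Q := by
          field_simp
        rw [e4] at e3
        linarith
      have e5 : δ / 32 * ((D : ℝ) ^ k * D / Q) = δ / 32 * ((D : ℝ) ^ k * D) / Q := by ring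
      rw [e5, le_div_iff₀ hQ0]
      exact e2
    have hJr : (0 : ℝ) < J := by exact_mod_cast hJ1
    have h4 : δ / 32 * Y ≤ lam * (G / J) := by
      have e1 : lam * (G / J + (D : ℝ) ^ k * (6 * D / (C0 * Q)) + (D : ℝ) ^ k)
          = lam * (G / J) + lam * ((D : ℝ) ^ k * (6 * D / (C0 * Q))) + lam * (D : ℝ) ^ k := by ring
      rw [e1] at hlowsum
      have e2 : δ / 32 * Y = (1 - δ / 8) * Y - (1 - 3 * δ / 8) * Y - δ / 8 * Y - δ / 16 * Y
          - δ / 32 * Y := by ring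
      linarith [hmass', hlowsum, h1, h2, h3, hP2, e2]
    have h5 : δ / 32 * Y * J ≤ lam * G := by
      have := mul_le_mul_of_nonneg_right h4 hJr.le
      have e1 : lam * (G / J) * J = lam * G := by
        field_simp
      rw [e1] at this
      exact this
    have h6 : δ / 32 * (D : ℝ) ^ (k + 1) ≤ δ / 32 * Y * J := by
      have e1 : (D : ℝ) ^ (k + 1) = Y * Q := by
        rw [hY]
        field_simp
      rw [e1]
      have := mul_le_mul_of_nonneg_left hJQ (by positivity : 0 ≤ δ / 32 * Y)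
      linarith
    have h7 : δ / 32 * (D : ℝ) ^ (k + 1) ≤ lam * G := h6.trans h5
    rw [hc2]
    have e1 : δ / (32 * lam) * (D : ℝ) ^ (k + 1) = δ / 32 * (D : ℝ) ^ (k + 1) / lam := by
      field_simp
    rw [e1, div_le_iff₀ hlam0]
    linarith
  -- upper half
  have hup : ∀ a ∈ box k D, κ / Q * ((BU a).card : ℝ)
      ≤ (((Ioc D (3 * D)).filter (fun n => n ∈ SS D a)).card : ℝ) := by
    intro a _
    have hex : ∀ t : ℕ, ∃ m : ℕ, t ∈ BU a → (C0 * Q ≤ m ∧
        (m : ℝ) ≤ c1 * D ∧ κ / Q * m < (cn (SS D a) t m : ℝ)) := by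
      intro t
      by_cases ht : t ∈ BU a
      · obtain ⟨m, hm⟩ := (mem_filter.mp ht).2
        exact ⟨m, fun _ => hm⟩
      · exact ⟨0, fun h => absurd h ht⟩
    choose h hh using hex
    have hmem : ∀ n ∈ BU a, D < n ∧ n ≤ 2 * D := by
      intro n hn
      have := (mem_filter.mp hn).1
      rw [hΩ, mem_Ioc] at this
      exact this
    apply upper (SS D a) (BU a) h D (3 * D) (κ / Q) (by positivity)
    · intro n hn
      exact (hmem n hn).1.le
    · intro n hn
      have h2 : m0 ≤ h n := Nat.ceil_le.mpr (hh n hn).1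
      omega
    · intro n hn
      have h2 := hmem n hn
      have h3 : h n ≤ m1 := Nat.le_floor (hh n hn).2.1
      omega
    · intro n hn
      exact (hh n hn).2.2.le
  have hupsum := sum_le_sum hup
  rw [← mul_sum] at hupsum
  have hBU : ∑ a ∈ box k D, ((BU a).card : ℝ) ≤ c2 / 2 * (D : ℝ) ^ (k + 1) := by
    have h1 := hupsum.trans (hmu D hD2)
    rw [hYeq] at h1
    have h2 : κ / Q * (c2 / 2 * (D : ℝ) ^ (k + 1)) = C2 * Y := by
      rw [hY, hκ]
      field_simp
    rw [← h2] at h1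
    exact le_of_mul_le_mul_left h1 (by positivity)
  -- conclusion
  have hfin : ∀ a ∈ box k D, ((Ω \ BL a).card : ℝ) - ((BU a).card : ℝ)
      ≤ ((Ω.filter (fun t => t ∈ good D a ((1 - δ / 2) / Q) (κ / Q) (C0 * Q) (c1 * D))).card : ℝ)
      := by
    intro a _
    have h1 : (Ω \ BL a) ⊆ Ω.filter (fun t => t ∈ good D a ((1 - δ / 2) / Q) (κ / Q) (C0 * Q) (c1 * D))
        ∪ BU a := by
      intro t ht
      rw [Finset.mem_sdiff] at ht
      rw [mem_union]
      by_cases htU : t ∈ BU a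
      · right; exact htU
      · left
        rw [mem_filter]
        have htΩ := ht.1
        rw [hΩ, mem_Ioc] at htΩ
        refine ⟨ht.1, htΩ.1, htΩ.2, ?_⟩
        intro m hm1' hm2'
        constructor
        · by_contra hcon
          push Not at hcon
          exact ht.2 (mem_filter.mpr ⟨ht.1, m, hm1', hm2', hcon⟩)
        · by_contra hcon
          push Not at hcon
          exact htU (mem_filter.mpr ⟨ht.1, m, hm1', hm2', hcon⟩)
    have h2 := (card_le_card h1).trans (card_union_le _ _)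
    have h3 : ((Ω \ BL a).card : ℝ) ≤ ((Ω.filter (fun t => t ∈ good D a ((1 - δ / 2) / Q) (κ / Q)
        (C0 * Q) (c1 * D))).card : ℝ) + ((BU a).card : ℝ) := by exact_mod_cast h2
    linarith
  have hfinsum := sum_le_sum hfin
  rw [sum_sub_distrib] at hfinsum
  linarith

end Pool.Agent.H10.Scale
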